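import Pool.Agent.R993.FTPot

set_option autoImplicit false

namespace Pool.Agent.R993.FT

open Set Real

lemma arctan_le_poly {x : ℝ} (hx : 0 ≤ x) : arctan x ≤ x - x ^ 3 / 3 + x ^ 5 / 5 := by
  have hd : ∀ t, HasDerivAt (fun t : ℝ => t - t ^ 3 / 3 + t ^ 5 / 5 - arctan t)
      (t ^ 6 / (1 + t ^ 2)) t := by
    intro t
    have h := ((((hasDerivAt_id t).sub (((hasDerivAt_id t).pow 3).div_const 3)).add
      (((hasDerivAt_id t).pow 5).div_const 5)).sub (hasDerivAt_arctan t))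
    refine h.congr_deriv ?_
    have : 1 + t ^ 2 ≠ 0 := by positivity
    simp only [id]
    field_simp
    norm_num
    ring
  have hm : Monotone (fun t : ℝ => t - t ^ 3 / 3 + t ^ 5 / 5 - arctan t) := by
    apply monotone_of_deriv_nonneg (fun t => (hd t).differentiableAt)
    intro t
    rw [(hd t).deriv]
    positivity
  have := hm hx
  simp at this
  linarith

lemma poly_le_arctan {x : ℝ} (hx : 0 ≤ x) :
    x - x ^ 3 / 3 + x ^ 5 / 5 - x ^ 7 / 7 ≤ arctan x := by
  have hd : ∀ t, HasDerivAt (fun t : ℝ => arctan t - (t - t ^ 3 / 3 + t ^ 5 / 5 - t ^ 7 / 7))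
      (t ^ 8 / (1 + t ^ 2)) t := by
    intro t
    have h := (hasDerivAt_arctan t).sub ((((hasDerivAt_id t).sub
      (((hasDerivAt_id t).pow 3).div_const 3)).add
      (((hasDerivAt_id t).pow 5).div_const 5)).sub (((hasDerivAt_id t).pow 7).div_const 7))
    refine h.congr_deriv ?_
    have : 1 + t ^ 2 ≠ 0 := by positivity
    simp only [id]
    field_simp
    norm_num
    ring
  have hm : Monotone (fun t : ℝ => arctan t - (t - t ^ 3 / 3 + t ^ 5 / 5 - t ^ 7 / 7)) := by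
    apply monotone_of_deriv_nonneg (fun t => (hd t).differentiableAt)
    intro t
    rw [(hd t).deriv]
    positivity
  have := hm hx
  simp at this
  linarith

lemma c_zero : c 0 = 2 := by
  have hE : exp b₀ * exp b₀ = 3 := by
    rw [← exp_add]
    unfold b₀
    rw [add_halves, exp_log (by norm_num)]
  have hE' : exp (-b₀) * exp b₀ = 1 := by
    rw [← exp_add]; simp
  have hpos := exp_pos b₀
  have h3 : exp (-b₀) = exp b₀ / 3 := by
    have : exp (-b₀) * exp b₀ = exp b₀ / 3 * exp b₀ := by rw [hE']; linarith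
    exact mul_right_cancel₀ hpos.ne' this
  unfold c
  rw [zero_add, cosh_eq, sinh_eq, h3]
  field_simp
  ring

lemma c_L : c (4 * π) ≤ 1 + 1 / 1000000 := by
  have hpi := pi_gt_three
  have hb := b₀_pos
  have hx : 12 ≤ 4 * π + b₀ := by linarith
  have hs := sh_pos (show (0 : ℝ) ≤ 4 * π by positivity)
  unfold c
  rw [div_le_iff₀ hs]
  set X := 4 * π + b₀ with hX
  have h1 : cosh X - sinh X = exp (-X) := cosh_sub_sinh X
  have h2 : sinh X = (exp X - exp (-X)) / 2 := sinh_eq X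
  have h3 : (2 : ℝ) ^ 12 ≤ exp X := by
    have h4 : (2 : ℝ) ≤ exp 1 := by
      have := add_one_le_exp (1 : ℝ)
      linarith
    calc (2 : ℝ) ^ 12 ≤ (exp 1) ^ 12 := pow_le_pow_left₀ (by norm_num) h4 12
      _ = exp 12 := by rw [← exp_nat_mul]; norm_num
      _ ≤ exp X := exp_le_exp.2 hx
  have h5 : exp (-X) * exp X = 1 := by rw [← exp_add]; simp
  have h6 : exp (-X) ≤ 1 / 2 ^ 12 := by
    rw [le_div_iff₀ (by norm_num)]
    have := exp_pos (-X)
    nlinarith
  have h7 : exp (-X) ≤ (1 / 1000000) * sinh X := by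
    rw [h2]
    have h8 := exp_pos (-X)
    have h9 : exp (-X) * 2 ^ 12 ≤ 1 := by
      rw [← h5]; exact mul_le_mul_of_nonneg_left h3 h8.le
    nlinarith
  linarith

lemma Θ_ge {q : ℝ} (hq : 0 ≤ q) : 4 * π * q - arctan (q / (2 + q ^ 2)) ≤ Θ (4 * π) q := by
  have hpi := pi_pos
  have hc := c_gt (show (0 : ℝ) ≤ 4 * π by positivity)
  unfold Θ
  rw [c_zero]
  have h1 : arctan (q / c (4 * π)) ≤ arctan q := by
    apply arctan_strictMono.monotone
    rw [div_le_iff₀ (by linarith)]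
    nlinarith
  have h2 : arctan q + arctan (-(q / 2)) = arctan (q / (2 + q ^ 2)) := by
    rw [arctan_add (by nlinarith)]
    congr 1
    have : (1 - q * -(q / 2)) ≠ 0 := by nlinarith
    have h3 : 2 + q ^ 2 ≠ 0 := by positivity
    rw [div_eq_div_iff this h3]
    ring
  rw [arctan_neg] at h2
  linarith

lemma Θ_le {q : ℝ} (hq : 0 ≤ q) : Θ (4 * π) q ≤
    4 * π * q - arctan ((q * (999999 / 1000000) - q / 2) / (1 + q * (999999 / 1000000) * (q / 2))) := by
  have hpi := pi_pos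
  have hc := c_gt (show (0 : ℝ) ≤ 4 * π by positivity)
  have hc2 := c_L
  unfold Θ
  rw [c_zero]
  have h1 : arctan (q * (999999 / 1000000)) ≤ arctan (q / c (4 * π)) := by
    apply arctan_strictMono.monotone
    rw [le_div_iff₀ (by linarith)]
    nlinarith
  have h2 : arctan (q * (999999 / 1000000)) + arctan (-(q / 2)) =
      arctan ((q * (999999 / 1000000) - q / 2) / (1 + q * (999999 / 1000000) * (q / 2))) := by
    rw [arctan_add (by nlinarith)]
    congr 1
    congr 1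
    ring
  rw [arctan_neg] at h2
  linarith

lemma one_le_L : 1 ≤ 4 * π := by have := pi_gt_three; linarith

lemma zr_lt {n : ℕ} {q : ℝ} (h : n * π < Θ (4 * π) q) : zr (4 * π) one_le_L n < q := by
  rw [← (Θ_strictMono one_le_L).lt_iff_lt, zr_spec]
  exact h

lemma lt_zr {n : ℕ} {q : ℝ} (h : Θ (4 * π) q < n * π) : q < zr (4 * π) one_le_L n := by
  rw [← (Θ_strictMono one_le_L).lt_iff_lt, zr_spec]
  exact h

lemma z1 : zr (4 * π) one_le_L 1 < 0.26 := by
  apply zr_lt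
  refine lt_of_lt_of_le ?_ (Θ_ge (by norm_num))
  have h1 := arctan_le_poly (x := 0.26 / (2 + 0.26 ^ 2)) (by norm_num)
  have h2 := pi_gt_d6
  have h3 := pi_lt_d6
  norm_num at h1 h2 h3 ⊢
  linarith

lemma z4 : zr (4 * π) one_le_L 4 < 1.0259 := by
  apply zr_lt
  refine lt_of_lt_of_le ?_ (Θ_ge (by norm_num))
  have h1 := arctan_le_poly (x := 1.0259 / (2 + 1.0259 ^ 2)) (by norm_num)
  have h2 := pi_gt_d6
  have h3 := pi_lt_d6
  norm_num at h1 h2 h3 ⊢
  linarith

lemma z2 : 0.5178 < zr (4 * π) one_le_L 2 := by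
  apply lt_zr
  refine lt_of_le_of_lt (Θ_le (by norm_num)) ?_
  have h1 := poly_le_arctan (x := (0.5178 * (999999 / 1000000) - 0.5178 / 2) /
    (1 + 0.5178 * (999999 / 1000000) * (0.5178 / 2))) (by norm_num)
  have h2 := pi_gt_d6
  have h3 := pi_lt_d6
  norm_num at h1 h2 h3 ⊢
  linarith

lemma z3 : 0.773 < zr (4 * π) one_le_L 3 := by
  apply lt_zr
  refine lt_of_le_of_lt (Θ_le (by norm_num)) ?_
  have h1 := poly_le_arctan (x := (0.773 * (999999 / 1000000) - 0.773 / 2) /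
    (1 + 0.773 * (999999 / 1000000) * (0.773 / 2))) (by norm_num)
  have h2 := pi_gt_d6
  have h3 := pi_lt_d6
  norm_num at h1 h2 h3 ⊢
  linarith

lemma four_term :
    zr (4 * π) one_le_L 1 ^ 2 / 1 ^ 2 + zr (4 * π) one_le_L 4 ^ 2 / 4 ^ 2 <
    zr (4 * π) one_le_L 2 ^ 2 / 2 ^ 2 + zr (4 * π) one_le_L 3 ^ 2 / 3 ^ 2 := by
  have h1 : zr (4 * π) one_le_L 1 ^ 2 < 0.26 ^ 2 :=
    pow_lt_pow_left₀ z1 (zr_nonneg _ _) (by norm_num)
  have h4 : zr (4 * π) one_le_L 4 ^ 2 < 1.0259 ^ 2 :=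
    pow_lt_pow_left₀ z4 (zr_nonneg _ _) (by norm_num)
  have h2 : 0.5178 ^ 2 < zr (4 * π) one_le_L 2 ^ 2 :=
    pow_lt_pow_left₀ z2 (by norm_num) (by norm_num)
  have h3 : 0.773 ^ 2 < zr (4 * π) one_le_L 3 ^ 2 :=
    pow_lt_pow_left₀ z3 (by norm_num) (by norm_num)
  norm_num at h1 h2 h3 h4 ⊢
  linarith

end Pool.Agent.R993.FT
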