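import Mathlib

set_option autoImplicit false

namespace Pool.Agent.R993.FT

open Set

/-- `μ` is a Dirichlet eigenvalue of `-y'' + V y` on `[a, b]`. -/
def IsEig (V : ℝ → ℝ) (a b μ : ℝ) : Prop :=
  ∃ y : ℝ → ℝ, ContinuousOn y (Icc a b) ∧ y a = 0 ∧ y b = 0 ∧
    DifferentiableOn ℝ y (Ioo a b) ∧ DifferentiableOn ℝ (deriv y) (Ioo a b) ∧
    (∀ x ∈ Ioo a b, -deriv (deriv y) x + V x * y x = μ * y x) ∧
    ∃ x ∈ Ioo a b, y x ≠ 0

lemma hasDerivAt_of_diffOn {y : ℝ → ℝ} {a b x : ℝ} (h : DifferentiableOn ℝ y (Ioo a b))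
    (hx : x ∈ Ioo a b) : HasDerivAt y (deriv y x) x :=
  ((h x hx).differentiableAt (Ioo_mem_nhds hx.1 hx.2)).hasDerivAt

lemma eig_pos {V : ℝ → ℝ} {a b μ : ℝ} (hV : ∀ x ∈ Icc a b, 0 ≤ V x) (h : IsEig V a b μ) :
    0 < μ := by
  by_contra hμ
  push Not at hμ
  obtain ⟨y, hc, ya, yb, hd, hdd, heq, x, hx, hyx⟩ := h
  have hconv : ConvexOn ℝ (Icc a b) (fun x => y x ^ 2) := by
    refine convexOn_of_hasDerivWithinAt2_nonneg (convex_Icc a b) (hc.pow 2)
      (f' := fun x => 2 * y x * deriv y x)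
      (f'' := fun x => 2 * (deriv y x * deriv y x + y x * deriv (deriv y) x)) ?_ ?_ ?_
    · intro t ht
      rw [interior_Icc] at ht ⊢
      have h1 := (hasDerivAt_of_diffOn hd ht).pow 2
      refine (h1.congr_deriv ?_).hasDerivWithinAt
      norm_num
    · intro t ht
      rw [interior_Icc] at ht ⊢
      have h1 := ((hasDerivAt_of_diffOn hd ht).const_mul 2).mul (hasDerivAt_of_diffOn hdd ht)
      refine (h1.congr_deriv ?_).hasDerivWithinAt
      ring
    · intro t ht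
      rw [interior_Icc] at ht
      have h1 := heq t ht
      have h2 : deriv (deriv y) t = (V t - μ) * y t := by linarith
      rw [h2]
      have h3 := hV t (Ioo_subset_Icc_self ht)
      have h4 : 0 ≤ (V t - μ) * (y t) ^ 2 := mul_nonneg (by linarith) (sq_nonneg _)
      nlinarith [mul_self_nonneg (deriv y t)]
  have hab : a ≤ b := hx.1.le.trans hx.2.le
  have h1 := hconv.le_max_of_mem_Icc (left_mem_Icc.2 hab) (right_mem_Icc.2 hab)
    (Ioo_subset_Icc_self hx)
  simp only [ya, yb] at h1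
  norm_num at h1
  exact hyx h1

lemma const_on {f f' : ℝ → ℝ} {a b : ℝ} (h : ∀ x ∈ Ioo a b, HasDerivAt f (f' x) x)
    (h0 : ∀ x ∈ Ioo a b, f' x = 0) {x y : ℝ} (hx : x ∈ Ioo a b) (hy : y ∈ Ioo a b) :
    f x = f y := by
  refine isOpen_Ioo.is_const_of_deriv_eq_zero isPreconnected_Ioo
    (fun t ht => (h t ht).differentiableAt.differentiableWithinAt) (fun t ht => ?_) hx hy
  rw [(h t ht).deriv, h0 t ht]
  rfl

lemma solution_repr {V : ℝ → ℝ} {a b μ : ℝ} (hab : a < b) {φ ψ φ' ψ' : ℝ → ℝ} {w : ℝ}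
    (hw : w ≠ 0)
    (hφ : ∀ x ∈ Ioo a b, HasDerivAt φ (φ' x) x)
    (hφ' : ∀ x ∈ Ioo a b, HasDerivAt φ' ((V x - μ) * φ x) x)
    (hψ : ∀ x ∈ Ioo a b, HasDerivAt ψ (ψ' x) x)
    (hψ' : ∀ x ∈ Ioo a b, HasDerivAt ψ' ((V x - μ) * ψ x) x)
    (hW : ∀ x ∈ Ioo a b, φ' x * ψ x - ψ' x * φ x = w)
    (hφc : ContinuousOn φ (Icc a b)) (hψc : ContinuousOn ψ (Icc a b)) {y : ℝ → ℝ}
    (hc : ContinuousOn y (Icc a b)) (hd : DifferentiableOn ℝ y (Ioo a b))
    (hdd : DifferentiableOn ℝ (deriv y) (Ioo a b))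
    (heq : ∀ x ∈ Ioo a b, -deriv (deriv y) x + V x * y x = μ * y x) :
    ∃ A B : ℝ, ∀ x ∈ Icc a b, y x = A * φ x + B * ψ x := by
  have hmid : (a + b) / 2 ∈ Ioo a b := ⟨by linarith, by linarith⟩
  have hy2 : ∀ x ∈ Ioo a b, HasDerivAt (deriv y) ((V x - μ) * y x) x := by
    intro x hx
    refine (hasDerivAt_of_diffOn hdd hx).congr_deriv ?_
    have := heq x hx
    linarith
  have hA : ∀ x ∈ Ioo a b, y x * φ' x - deriv y x * φ x =
      y ((a + b) / 2) * φ' ((a + b) / 2) - deriv y ((a + b) / 2) * φ ((a + b) / 2) := by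
    intro x hx
    refine const_on (f := fun x => y x * φ' x - deriv y x * φ x)
      (fun t ht => ((hasDerivAt_of_diffOn hd ht).mul (hφ' t ht)).sub
        ((hy2 t ht).mul (hφ t ht))) (fun t _ => ?_) hx hmid
    ring
  have hB : ∀ x ∈ Ioo a b, y x * ψ' x - deriv y x * ψ x =
      y ((a + b) / 2) * ψ' ((a + b) / 2) - deriv y ((a + b) / 2) * ψ ((a + b) / 2) := by
    intro x hx
    refine const_on (f := fun x => y x * ψ' x - deriv y x * ψ x)
      (fun t ht => ((hasDerivAt_of_diffOn hd ht).mul (hψ' t ht)).sub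
        ((hy2 t ht).mul (hψ t ht))) (fun t _ => ?_) hx hmid
    ring
  set A := y ((a + b) / 2) * φ' ((a + b) / 2) - deriv y ((a + b) / 2) * φ ((a + b) / 2)
  set B := y ((a + b) / 2) * ψ' ((a + b) / 2) - deriv y ((a + b) / 2) * ψ ((a + b) / 2)
  refine ⟨-B / w, A / w, ?_⟩
  have hEq : EqOn y (fun x => -B / w * φ x + A / w * ψ x) (Ioo a b) := by
    intro x hx
    have h1 := hA x hx
    have h2 := hB x hx
    have h3 := hW x hx
    simp only
    rw [← h1, ← h2]
    field_simp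
    rw [← h3]
    ring
  refine hEq.of_subset_closure hc ?_ Ioo_subset_Icc_self ?_
  · exact (continuousOn_const.mul hφc).add (continuousOn_const.mul hψc)
  · rw [closure_Ioo hab.ne]

/-- Characterisation of the eigenvalues by a determinant. -/
lemma isEig_iff {V : ℝ → ℝ} {a b μ : ℝ} (hab : a < b) {φ ψ φ' ψ' : ℝ → ℝ} {w : ℝ}
    (hw : w ≠ 0)
    (hφ : ∀ x ∈ Ioo a b, HasDerivAt φ (φ' x) x)
    (hφ' : ∀ x ∈ Ioo a b, HasDerivAt φ' ((V x - μ) * φ x) x)
    (hψ : ∀ x ∈ Ioo a b, HasDerivAt ψ (ψ' x) x)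
    (hψ' : ∀ x ∈ Ioo a b, HasDerivAt ψ' ((V x - μ) * ψ x) x)
    (hW : ∀ x ∈ Ioo a b, φ' x * ψ x - ψ' x * φ x = w)
    (hφc : ContinuousOn φ (Icc a b)) (hψc : ContinuousOn ψ (Icc a b))
    (hφa : φ a ≠ 0) :
    IsEig V a b μ ↔ φ a * ψ b - ψ a * φ b = 0 := by
  have hmid : (a + b) / 2 ∈ Ioo a b := ⟨by linarith, by linarith⟩
  constructor
  · rintro ⟨y, hc, ya, yb, hd, hdd, heq, x, hx, hyx⟩
    obtain ⟨A, B, hAB⟩ := solution_repr hab hw hφ hφ' hψ hψ' hW hφc hψc hc hd hdd heq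
    have h1 := hAB a (left_mem_Icc.2 hab.le)
    have h2 := hAB b (right_mem_Icc.2 hab.le)
    rw [ya] at h1
    rw [yb] at h2
    by_contra hdet
    have hB : B = 0 := by
      have : B * (φ a * ψ b - ψ a * φ b) = 0 := by linear_combination (-φ a) * h2 + φ b * h1
      exact (mul_eq_zero.1 this).resolve_right hdet
    have hA : A = 0 := by
      rw [hB] at h1
      have : A * φ a = 0 := by linarith
      exact (mul_eq_zero.1 this).resolve_right hφa
    apply hyx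
    rw [hAB x (Ioo_subset_Icc_self hx), hA, hB]
    ring
  · intro hdet
    have hder : ∀ x ∈ Ioo a b, HasDerivAt (fun x => φ a * ψ x - ψ a * φ x)
        (φ a * ψ' x - ψ a * φ' x) x := fun x hx =>
      ((hψ x hx).const_mul _).sub ((hφ x hx).const_mul _)
    have hderEq : EqOn (deriv (fun x => φ a * ψ x - ψ a * φ x))
        (fun x => φ a * ψ' x - ψ a * φ' x) (Ioo a b) := fun x hx => (hder x hx).deriv
    have hder2 : ∀ x ∈ Ioo a b, HasDerivAt (fun x => φ a * ψ' x - ψ a * φ' x)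
        ((V x - μ) * (φ a * ψ x - ψ a * φ x)) x := fun x hx =>
      (((hψ' x hx).const_mul _).sub ((hφ' x hx).const_mul _)).congr_deriv (by ring)
    have hder3 : ∀ x ∈ Ioo a b, HasDerivAt (deriv (fun x => φ a * ψ x - ψ a * φ x))
        ((V x - μ) * (φ a * ψ x - ψ a * φ x)) x := fun x hx =>
      (hder2 x hx).congr_of_eventuallyEq
        (Filter.eventuallyEq_of_mem (Ioo_mem_nhds hx.1 hx.2) hderEq)
    refine ⟨fun x => φ a * ψ x - ψ a * φ x, ?_, by ring, hdet, ?_, ?_, ?_, ?_⟩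
    · exact (continuousOn_const.mul hψc).sub (continuousOn_const.mul hφc)
    · exact fun x hx => (hder x hx).differentiableAt.differentiableWithinAt
    · exact fun x hx => (hder3 x hx).differentiableAt.differentiableWithinAt
    · intro x hx
      rw [(hder3 x hx).deriv]
      ring
    · by_contra hall
      push Not at hall
      have h0 : φ a * ψ' ((a + b) / 2) - ψ a * φ' ((a + b) / 2) = 0 := by
        rw [← (hder _ hmid).deriv]
        have : (fun x => φ a * ψ x - ψ a * φ x) =ᶠ[nhds ((a + b) / 2)] fun _ => 0 :=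
          Filter.eventuallyEq_of_mem (Ioo_mem_nhds hmid.1 hmid.2) hall
        rw [this.deriv_eq]
        simp
      have h1 := hall _ hmid
      have h2 := hW _ hmid
      apply hw
      have h3 : φ a * w = 0 := by
        rw [← h2]
        linear_combination (φ' ((a + b) / 2)) * h1 - (φ ((a + b) / 2)) * h0
      exact (mul_eq_zero.1 h3).resolve_left hφa

end Pool.Agent.R993.FT
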