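import Pool.Agent.R993.FTOde

set_option autoImplicit false

namespace Pool.Agent.R993.FT

open Set Real

/-- The shift `b₀ = (log 3)/2`, for which `tanh b₀ = 1/2`. -/
noncomputable def b₀ : ℝ := Real.log 3 / 2

lemma b₀_pos : 0 < b₀ := by
  unfold b₀
  have := Real.log_pos (show (1 : ℝ) < 3 by norm_num)
  linarith

/-- `coth (x + b₀)`. -/
noncomputable def c (x : ℝ) : ℝ := cosh (x + b₀) / sinh (x + b₀)

/-- The potential. -/
noncomputable def V (x : ℝ) : ℝ := 2 / sinh (x + b₀) ^ 2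

lemma sh_pos {x : ℝ} (hx : 0 ≤ x) : 0 < sinh (x + b₀) :=
  sinh_pos_iff.2 (by have := b₀_pos; linarith)

lemma V_eq {x : ℝ} (hx : 0 ≤ x) : V x = 2 * (c x ^ 2 - 1) := by
  have h := (sh_pos hx).ne'
  have h2 := cosh_sq (x + b₀)
  unfold V c
  field_simp
  rw [h2]; ring

lemma c_gt {x : ℝ} (hx : 0 ≤ x) : 1 < c x := by
  unfold c
  rw [one_lt_div (sh_pos hx)]
  exact sinh_lt_cosh _

lemma hasDerivAt_c {x : ℝ} (hx : 0 ≤ x) : HasDerivAt c (1 - c x ^ 2) x := by
  have h := (sh_pos hx).ne'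
  have h1 : HasDerivAt (fun x => x + b₀) 1 x := (hasDerivAt_id x).add_const b₀
  have h2 : HasDerivAt (fun x => cosh (x + b₀)) (sinh (x + b₀) * 1) x := h1.cosh
  have h3 : HasDerivAt (fun x => sinh (x + b₀)) (cosh (x + b₀) * 1) x := h1.sinh
  refine (h2.div h3 h).congr_deriv ?_
  unfold c
  field_simp

lemma V_convex {L : ℝ} : ConvexOn ℝ (Icc 0 L) V := by
  have hc : ConvexOn ℝ (Icc 0 L) (fun x => 2 * (c x ^ 2 - 1)) := by
    refine convexOn_of_hasDerivWithinAt2_nonneg (convex_Icc 0 L) ?_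
      (f' := fun x => 4 * c x * (1 - c x ^ 2))
      (f'' := fun x => 4 * (1 - c x ^ 2) * (1 - 3 * c x ^ 2)) ?_ ?_ ?_
    · intro x hx
      have h1 := (hasDerivAt_c hx.1).continuousAt
      exact (continuousAt_const.mul ((h1.pow 2).sub continuousAt_const)).continuousWithinAt
    · intro x hx
      rw [interior_Icc] at hx ⊢
      have h1 := (((hasDerivAt_c hx.1.le).pow 2).sub_const 1).const_mul 2
      refine (h1.congr_deriv ?_).hasDerivWithinAt
      norm_num
      ring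
    · intro x hx
      rw [interior_Icc] at hx ⊢
      have h0 := hasDerivAt_c hx.1.le
      have h1 := (h0.const_mul 4).mul ((h0.pow 2).const_sub 1)
      refine (h1.congr_deriv ?_).hasDerivWithinAt
      norm_num
      ring
    · intro x hx
      rw [interior_Icc] at hx
      have h1 := c_gt hx.1.le
      have h2 : 1 < c x ^ 2 := by nlinarith
      nlinarith
  refine hc.congr fun x hx => ?_
  exact (V_eq hx.1).symm

lemma V_nonneg (x : ℝ) : 0 ≤ V x := by unfold V; positivity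

lemma V_cont {L : ℝ} : ContinuousOn V (Icc 0 L) := by
  intro x hx
  have h := (sh_pos hx.1).ne'
  unfold V
  apply ContinuousAt.continuousWithinAt
  refine continuousAt_const.div ?_ (pow_ne_zero 2 h)
  fun_prop

/-- The explicit solutions. -/
noncomputable def φ (z x : ℝ) : ℝ := z * cos (z * x) - c x * sin (z * x)
noncomputable def ψ (z x : ℝ) : ℝ := -z * sin (z * x) - c x * cos (z * x)
noncomputable def φ' (z x : ℝ) : ℝ := -(z ^ 2 + 1 - c x ^ 2) * sin (z * x) - c x * z * cos (z * x)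
noncomputable def ψ' (z x : ℝ) : ℝ := -(z ^ 2 + 1 - c x ^ 2) * cos (z * x) + c x * z * sin (z * x)

lemma hasDerivAt_sin_mul (z x : ℝ) : HasDerivAt (fun x => sin (z * x)) (z * cos (z * x)) x := by
  have h := (hasDerivAt_sin (z * x)).comp x ((hasDerivAt_id x).const_mul z)
  refine h.congr_deriv ?_
  simp; ring

lemma hasDerivAt_cos_mul (z x : ℝ) : HasDerivAt (fun x => cos (z * x)) (-z * sin (z * x)) x := by
  have h := (hasDerivAt_cos (z * x)).comp x ((hasDerivAt_id x).const_mul z)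
  refine h.congr_deriv ?_
  simp; ring

lemma hφ {z x : ℝ} (hx : 0 ≤ x) : HasDerivAt (φ z) (φ' z x) x := by
  have h := ((hasDerivAt_cos_mul z x).const_mul z).sub
    ((hasDerivAt_c hx).mul (hasDerivAt_sin_mul z x))
  refine h.congr_deriv ?_
  unfold φ'
  ring

lemma hψ {z x : ℝ} (hx : 0 ≤ x) : HasDerivAt (ψ z) (ψ' z x) x := by
  have h := ((hasDerivAt_sin_mul z x).const_mul (-z)).sub
    ((hasDerivAt_c hx).mul (hasDerivAt_cos_mul z x))
  refine h.congr_deriv ?_
  unfold ψ'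
  ring

lemma hφ' {z x : ℝ} (hx : 0 ≤ x) : HasDerivAt (φ' z) ((V x - z ^ 2) * φ z x) x := by
  have h0 := hasDerivAt_c hx
  have h1 : HasDerivAt (fun x => -(z ^ 2 + 1 - c x ^ 2)) (2 * c x * (1 - c x ^ 2)) x := by
    refine (((h0.pow 2).const_sub (z ^ 2 + 1)).neg).congr_deriv ?_
    norm_num
  have h2 : HasDerivAt (fun x => c x * z) ((1 - c x ^ 2) * z) x := h0.mul_const z
  have h := (h1.mul (hasDerivAt_sin_mul z x)).sub (h2.mul (hasDerivAt_cos_mul z x))
  refine h.congr_deriv ?_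
  rw [V_eq hx]
  unfold φ
  ring

lemma hψ' {z x : ℝ} (hx : 0 ≤ x) : HasDerivAt (ψ' z) ((V x - z ^ 2) * ψ z x) x := by
  have h0 := hasDerivAt_c hx
  have h1 : HasDerivAt (fun x => -(z ^ 2 + 1 - c x ^ 2)) (2 * c x * (1 - c x ^ 2)) x := by
    refine (((h0.pow 2).const_sub (z ^ 2 + 1)).neg).congr_deriv ?_
    norm_num
  have h2 : HasDerivAt (fun x => c x * z) ((1 - c x ^ 2) * z) x := h0.mul_const z
  have h := (h1.mul (hasDerivAt_cos_mul z x)).add (h2.mul (hasDerivAt_sin_mul z x))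
  refine h.congr_deriv ?_
  rw [V_eq hx]
  unfold ψ
  ring

lemma wron (z x : ℝ) : φ' z x * ψ z x - ψ' z x * φ z x = z * (z ^ 2 + 1) := by
  unfold φ φ' ψ ψ'
  have h := sin_sq_add_cos_sq (z * x)
  linear_combination (z * (z ^ 2 + 1 - c x ^ 2) + c x ^ 2 * z) * h

/-- The phase function. -/
noncomputable def Θ (L z : ℝ) : ℝ := z * L - arctan (z / c L) + arctan (z / c 0)

lemma det_eq {L z : ℝ} (hL : 0 ≤ L) :
    φ z 0 * ψ z L - ψ z 0 * φ z L =
      - (c 0 * c L) * (√(1 + (z / c L) ^ 2) * √(1 + (z / c 0) ^ 2)) * sin (Θ L z) := by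
  have h0 : c 0 ≠ 0 := by have := c_gt le_rfl; linarith
  have hL' : c L ≠ 0 := by have := c_gt hL; linarith
  have s1 : √(1 + (z / c L) ^ 2) ≠ 0 := (Real.sqrt_pos.2 (by positivity)).ne'
  have s2 : √(1 + (z / c 0) ^ 2) ≠ 0 := (Real.sqrt_pos.2 (by positivity)).ne'
  have e1 : sin (Θ L z) = (sin (z * L) * (1 + (z / c L) * (z / c 0)) -
      cos (z * L) * (z / c L - z / c 0)) /
      (√(1 + (z / c L) ^ 2) * √(1 + (z / c 0) ^ 2)) := by
    unfold Θ
    rw [sin_add, sin_sub, cos_sub, sin_arctan, cos_arctan, sin_arctan, cos_arctan]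
    field_simp
    ring
  rw [e1]
  have e2 : φ z 0 = z := by unfold φ; simp
  have e3 : ψ z 0 = - c 0 := by unfold ψ; simp
  rw [e2, e3]
  unfold φ ψ
  field_simp
  ring

lemma isEig_sq_iff {L z : ℝ} (hL : 0 < L) (hz : 0 < z) :
    IsEig V 0 L (z ^ 2) ↔ sin (Θ L z) = 0 := by
  have hw : z * (z ^ 2 + 1) ≠ 0 := by positivity
  have e2 : φ z 0 = z := by unfold φ; simp
  rw [isEig_iff hL (φ := φ z) (ψ := ψ z) (φ' := φ' z) (ψ' := ψ' z) hw
    (fun x hx => hφ hx.1.le) (fun x hx => hφ' hx.1.le) (fun x hx => hψ hx.1.le)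
    (fun x hx => hψ' hx.1.le) (fun x _ => wron z x)
    (fun x hx => (hφ hx.1).continuousAt.continuousWithinAt)
    (fun x hx => (hψ hx.1).continuousAt.continuousWithinAt) (by rw [e2]; exact hz.ne'),
    det_eq hL.le]
  have h0 : c 0 ≠ 0 := by have := c_gt le_rfl; linarith
  have hL' : c L ≠ 0 := by have := c_gt hL.le; linarith
  have s1 : √(1 + (z / c L) ^ 2) ≠ 0 := (Real.sqrt_pos.2 (by positivity)).ne'
  have s2 : √(1 + (z / c 0) ^ 2) ≠ 0 := (Real.sqrt_pos.2 (by positivity)).ne'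
  have : - (c 0 * c L) * (√(1 + (z / c L) ^ 2) * √(1 + (z / c 0) ^ 2)) ≠ 0 :=
    mul_ne_zero (neg_ne_zero.2 (mul_ne_zero h0 hL')) (mul_ne_zero s1 s2)
  rw [mul_eq_zero, or_iff_right this]

lemma hasDerivAt_Θ (L z : ℝ) : HasDerivAt (Θ L)
    (L - 1 / (1 + (z / c L) ^ 2) * (1 / c L) + 1 / (1 + (z / c 0) ^ 2) * (1 / c 0)) z := by
  have h1 : HasDerivAt (fun z => arctan (z / c L)) (1 / (1 + (z / c L) ^ 2) * (1 / c L)) z :=
    ((hasDerivAt_id z).div_const (c L)).arctan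
  have h2 : HasDerivAt (fun z => arctan (z / c 0)) (1 / (1 + (z / c 0) ^ 2) * (1 / c 0)) z :=
    ((hasDerivAt_id z).div_const (c 0)).arctan
  have h3 : HasDerivAt (fun z => z * L) L z := by
    simpa using (hasDerivAt_id z).mul_const L
  exact (h3.sub h1).add h2

lemma Θ_strictMono {L : ℝ} (hL : 1 ≤ L) : StrictMono (Θ L) := by
  apply strictMono_of_deriv_pos
  intro z
  rw [(hasDerivAt_Θ L z).deriv]
  have h0 := c_gt (le_refl (0:ℝ))
  have hL' := c_gt (show (0:ℝ) ≤ L by linarith)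
  have h1 : 1 / (1 + (z / c L) ^ 2) * (1 / c L) < 1 := by
    have h2 : 1 / (1 + (z / c L) ^ 2) ≤ 1 := by
      rw [div_le_one (by positivity)]
      nlinarith [sq_nonneg (z / c L)]
    have h3 : 1 / c L < 1 := by rw [div_lt_one (by linarith)]; exact hL'
    have h4 : 0 < 1 / c L := by positivity
    have h5 : 0 < 1 / (1 + (z / c L) ^ 2) := by positivity
    nlinarith
  have h2 : 0 < 1 / (1 + (z / c 0) ^ 2) * (1 / c 0) := by
    have : 0 < c 0 := by linarith
    positivity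
  linarith

lemma Θ_zero (L : ℝ) : Θ L 0 = 0 := by simp [Θ]

lemma Θ_cont (L : ℝ) : Continuous (Θ L) :=
  continuous_iff_continuousAt.2 fun z => (hasDerivAt_Θ L z).continuousAt

lemma Θ_lower {L z : ℝ} (hz : 0 ≤ z) : z * L - π / 2 ≤ Θ L z := by
  unfold Θ
  have h1 := arctan_lt_pi_div_two (z / c L)
  have h2 : 0 ≤ arctan (z / c 0) := by
    have : 0 ≤ z / c 0 := by
      have := c_gt (le_refl (0:ℝ))
      positivity
    have h3 := arctan_strictMono.monotone this
    rwa [arctan_zero] at h3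
  linarith

lemma exists_root {L : ℝ} (hL : 1 ≤ L) (n : ℕ) : ∃ z, 0 ≤ z ∧ Θ L z = n * π := by
  have h1 : Θ L 0 ≤ n * π := by rw [Θ_zero]; positivity
  have h2 : n * π ≤ Θ L ((n + 1) * π) := by
    refine le_trans ?_ (Θ_lower (by positivity))
    have h3 : (n + 1) * π ≤ (n + 1) * π * L := by
      have : 0 ≤ ((n : ℝ) + 1) * π := by positivity
      nlinarith
    have := pi_pos
    nlinarith
  obtain ⟨z, hz, hz'⟩ := intermediate_value_Icc (show (0 : ℝ) ≤ (n + 1) * π by positivity)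
    (Θ_cont L).continuousOn ⟨h1, h2⟩
  exact ⟨z, hz.1, hz'⟩

/-- The square roots of the eigenvalues. -/
noncomputable def zr (L : ℝ) (hL : 1 ≤ L) (n : ℕ) : ℝ := (exists_root hL n).choose

section
variable {L : ℝ} (hL : 1 ≤ L)

lemma zr_nonneg (n : ℕ) : 0 ≤ zr L hL n := (exists_root hL n).choose_spec.1
lemma zr_spec (n : ℕ) : Θ L (zr L hL n) = n * π := (exists_root hL n).choose_spec.2

lemma zr_strictMono : StrictMono (zr L hL) := by
  intro m n hmn
  rw [← (Θ_strictMono hL).lt_iff_lt, zr_spec, zr_spec]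
  have : (m : ℝ) < n := by exact_mod_cast hmn
  exact mul_lt_mul_of_pos_right this pi_pos

lemma zr_pos {n : ℕ} (hn : 0 < n) : 0 < zr L hL n :=
  lt_of_le_of_lt (zr_nonneg hL 0) (zr_strictMono hL hn)

lemma isEig_iff_zr {μ : ℝ} : IsEig V 0 L μ ↔ ∃ n : ℕ, μ = zr L hL (n + 1) ^ 2 := by
  constructor
  · intro h
    have hμ := eig_pos (fun x _ => V_nonneg x) h
    have hz : 0 < √μ := Real.sqrt_pos.2 hμ
    have hsq : √μ ^ 2 = μ := Real.sq_sqrt hμ.le
    rw [← hsq, isEig_sq_iff (by linarith) hz, sin_eq_zero_iff] at h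
    obtain ⟨m, hm⟩ := h
    have hpos : 0 < Θ L (√μ) := by
      rw [← Θ_zero L]; exact Θ_strictMono hL hz
    rw [← hm] at hpos
    have hm0 : 0 < m := by
      have : (0 : ℝ) < m := by
        by_contra hcon
        push Not at hcon
        nlinarith [pi_pos]
      exact_mod_cast this
    obtain ⟨n, rfl⟩ : ∃ n : ℕ, m = (n : ℤ) + 1 := by
      refine ⟨(m - 1).toNat, ?_⟩
      omega
    refine ⟨n, ?_⟩
    have : √μ = zr L hL (n + 1) := by
      apply (Θ_strictMono hL).injective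
      rw [zr_spec, ← hm]
      push_cast
      ring
    rw [← this, hsq]
  · rintro ⟨n, rfl⟩
    rw [isEig_sq_iff (by linarith) (zr_pos hL n.succ_pos), zr_spec]
    exact sin_nat_mul_pi _

lemma encard_lt (n : ℕ) : {ν | IsEig V 0 L ν ∧ ν < zr L hL (n + 1) ^ 2}.encard = n := by
  have h1 : {ν | IsEig V 0 L ν ∧ ν < zr L hL (n + 1) ^ 2} =
      (fun m : ℕ => zr L hL (m + 1) ^ 2) '' (Finset.range n : Set ℕ) := by
    ext ν
    simp only [mem_ofPred_eq, mem_image, Finset.coe_range, mem_Iio]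
    constructor
    · rintro ⟨h, hν⟩
      obtain ⟨m, rfl⟩ := (isEig_iff_zr hL).1 h
      refine ⟨m, ?_, rfl⟩
      have h2 := lt_of_pow_lt_pow_left₀ 2 (zr_nonneg hL _) hν
      have h3 := (zr_strictMono hL).lt_iff_lt.1 h2
      omega
    · rintro ⟨m, hm, rfl⟩
      refine ⟨(isEig_iff_zr hL).2 ⟨m, rfl⟩, ?_⟩
      exact pow_lt_pow_left₀ (zr_strictMono hL (by omega)) (zr_nonneg hL _) (by norm_num)
  rw [h1, InjOn.encard_image]
  · rw [Set.encard_coe_eq_coe_finsetCard, Finset.card_range]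
  · intro a _ b _ hab
    simp only at hab
    have h2 := (pow_left_inj₀ (zr_nonneg hL _) (zr_nonneg hL _) (by norm_num)).1 hab
    have h3 := (zr_strictMono hL).injective h2
    omega

end

end Pool.Agent.R993.FT
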