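import Mathlib

set_option autoImplicit false

open Matrix
open scoped MatrixOrder ComplexOrder

namespace Pool.Agent.R993.MT

variable {n : Type*} [Fintype n]

/-- The real part of the trace. -/
noncomputable def tr (A : Matrix n n ℂ) : ℝ := A.trace.re

lemma tr_add (A B : Matrix n n ℂ) : tr (A + B) = tr A + tr B := by
  simp [tr, Matrix.trace_add]

lemma tr_sub (A B : Matrix n n ℂ) : tr (A - B) = tr A - tr B := by
  simp [tr, Matrix.trace_sub]

lemma tr_neg (A : Matrix n n ℂ) : tr (-A) = - tr A := by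
  simp [tr, Matrix.trace_neg]

lemma tr_zero : tr (0 : Matrix n n ℂ) = 0 := by simp [tr]

lemma tr_smul (c : ℝ) (A : Matrix n n ℂ) : tr (c • A) = c * tr A := by
  simp [tr, Matrix.trace_smul]

lemma tr_sum {ι : Type*} (s : Finset ι) (A : ι → Matrix n n ℂ) :
    tr (∑ i ∈ s, A i) = ∑ i ∈ s, tr (A i) := by
  simp [tr, Matrix.trace_sum]

lemma tr_comm (A B : Matrix n n ℂ) : tr (A * B) = tr (B * A) := by
  simp only [tr]
  rw [Matrix.trace_mul_comm]

lemma tr_star (A : Matrix n n ℂ) : tr (star A) = tr A := by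
  simp [tr, Matrix.star_eq_conjTranspose, Matrix.trace_conjTranspose]

lemma tr_nonneg {A : Matrix n n ℂ} (h : 0 ≤ A) : 0 ≤ tr A :=
  (Complex.nonneg_iff.1 (nonneg_iff_posSemidef.1 h).trace_nonneg).1

lemma tr_mono {A B : Matrix n n ℂ} (h : A ≤ B) : tr A ≤ tr B := by
  have := tr_nonneg (sub_nonneg.2 h)
  rw [tr_sub] at this
  linarith

lemma conj_nonneg {A : Matrix n n ℂ} (h : 0 ≤ A) (B : Matrix n n ℂ) : 0 ≤ star B * A * B :=
  star_left_conjugate_nonneg h B

lemma conj_nonneg' {A : Matrix n n ℂ} (h : 0 ≤ A) (B : Matrix n n ℂ) : 0 ≤ B * A * star B :=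
  star_right_conjugate_nonneg h B

lemma mul_star_nonneg (B : Matrix n n ℂ) : 0 ≤ B * star B := _root_.mul_star_self_nonneg B

lemma star_mul_nonneg (B : Matrix n n ℂ) : 0 ≤ star B * B := _root_.star_mul_self_nonneg B

/-- The trace of the product of two positive matrices is nonnegative. -/
lemma tr_mul_nonneg {A B : Matrix n n ℂ} (hA : 0 ≤ A) (hB : 0 ≤ B) : 0 ≤ tr (A * B) := by
  classical
  have h1 : B = CFC.sqrt B * CFC.sqrt B := (CFC.sqrt_mul_sqrt_self B hB).symm
  have h2 : star (CFC.sqrt B) = CFC.sqrt B := (IsSelfAdjoint.of_nonneg (CFC.sqrt_nonneg B)).star_eq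
  rw [h1, ← mul_assoc, tr_comm, ← mul_assoc]
  have := conj_nonneg hA (CFC.sqrt B)
  rw [h2] at this
  exact tr_nonneg this

lemma tr_mul_mono {A B C : Matrix n n ℂ} (hC : 0 ≤ C) (h : A ≤ B) : tr (A * C) ≤ tr (B * C) := by
  have := tr_mul_nonneg (sub_nonneg.2 h) hC
  rw [sub_mul, tr_sub] at this
  linarith

lemma tr_mul_mono' {A B C : Matrix n n ℂ} (hC : 0 ≤ C) (h : A ≤ B) : tr (C * A) ≤ tr (C * B) := by
  rw [tr_comm C, tr_comm C]
  exact tr_mul_mono hC h

/-- Cauchy-Schwarz in the form `2 Re Tr A* B ≤ Tr A* A + Tr B* B`. -/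
lemma two_tr_le (A B : Matrix n n ℂ) :
    2 * tr (star A * B) ≤ tr (star A * A) + tr (star B * B) := by
  have h := tr_nonneg (star_mul_nonneg (A - B))
  have e : star (A - B) * (A - B) = star A * A - star A * B - star B * A + star B * B := by
    rw [star_sub]; noncomm_ring
  have e2 : tr (star B * A) = tr (star A * B) := by
    rw [← tr_star (star B * A), star_mul, star_star]
  rw [e, tr_add, tr_sub, tr_sub, e2] at h
  linarith

/-- Orthogonal projections. -/
structure Proj (P : Matrix n n ℂ) : Prop where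
  sa : star P = P
  idem : P * P = P

lemma Proj.nonneg {P : Matrix n n ℂ} (h : Proj P) : 0 ≤ P := by
  have := star_mul_nonneg P
  rwa [h.sa, h.idem] at this

lemma Proj.one_sub [DecidableEq n] {P : Matrix n n ℂ} (h : Proj P) : Proj (1 - P) := by
  refine ⟨by rw [star_sub, h.sa, star_one], ?_⟩
  rw [sub_mul, one_mul, mul_sub, mul_one, h.idem]
  simp

lemma Proj.le_one [DecidableEq n] {P : Matrix n n ℂ} (h : Proj P) : P ≤ 1 :=
  sub_nonneg.1 h.one_sub.nonneg

lemma Proj.sub {P Q : Matrix n n ℂ} (hP : Proj P) (hQ : Proj Q) (h : P * Q = Q) : Proj (P - Q) := by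
  have h' : Q * P = Q := by
    have := congrArg star h
    rwa [star_mul, hP.sa, hQ.sa] at this
  refine ⟨by rw [star_sub, hP.sa, hQ.sa], ?_⟩
  rw [sub_mul, mul_sub, mul_sub, hP.idem, hQ.idem, h, h']
  simp

/-- Compression by a projection decreases the trace of a positive matrix. -/
lemma tr_compress [DecidableEq n] {P A : Matrix n n ℂ} (hP : Proj P) (hA : 0 ≤ A) :
    tr (P * A) ≤ tr A := by
  have := tr_mul_mono hA hP.le_one
  rwa [one_mul] at this

end Pool.Agent.R993.MT
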