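import Pool.Agent.R993.MTSpectral

set_option autoImplicit false

open Matrix
open scoped MatrixOrder ComplexOrder

namespace Pool.Agent.R993.MT

variable {n : Type*} [Fintype n] [DecidableEq n]

/-- The trace norm. -/
noncomputable def trNorm (X : Matrix n n ℂ) : ℝ := tr (CFC.sqrt (Xᴴ * X))

lemma sqrt_eq_of_sq {Y S : Matrix n n ℂ} (hS : 0 ≤ S) (h : S * S = Y) : CFC.sqrt Y = S :=
  CFC.sqrt_unique h hS

lemma trNorm_sub {A B : Matrix n n ℂ} (hA : 0 ≤ A) (hB : 0 ≤ B) :
    ∃ P, Proj P ∧ trNorm (A - B) = 2 * tr (P * (A - B)) - tr (A - B) := by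
  have hs : star (A - B) = A - B := by
    rw [star_sub, (IsSelfAdjoint.of_nonneg hA).star_eq, (IsSelfAdjoint.of_nonneg hB).star_eq]
  refine ⟨cfc (fun x : ℝ => if 0 < x then (1 : ℝ) else 0) (A - B), fc_proj _ _, ?_⟩
  have h1 : CFC.sqrt ((A - B)ᴴ * (A - B)) = cfc (fun x : ℝ => |x|) (A - B) := by
    refine sqrt_eq_of_sq ?_ ?_
    · exact cfc_nonneg fun x _ => abs_nonneg x
    · rw [fc_mul, ← Matrix.star_eq_conjTranspose, hs]
      have : (A - B) * (A - B) = cfc (fun x : ℝ => x * x) (A - B) := by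
        rw [← fc_mul, fc_id hs]
      rw [this]
      exact fc_congr fun x _ => abs_mul_abs_self x
  rw [trNorm, h1, fc_mul_self _ hs]
  have h2 : cfc (fun x : ℝ => |x|) (A - B) =
      (2 : ℝ) • cfc (fun x : ℝ => (if 0 < x then (1 : ℝ) else 0) * x) (A - B) - (A - B) := by
    have h3 : (2 : ℝ) • cfc (fun x : ℝ => (if 0 < x then (1 : ℝ) else 0) * x) (A - B) - (A - B) =
        (2 : ℝ) • cfc (fun x : ℝ => (if 0 < x then (1 : ℝ) else 0) * x) (A - B) -
          cfc (fun x : ℝ => x) (A - B) := by rw [fc_id hs]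
    rw [h3, fc_smul, fc_sub]
    refine fc_congr fun x _ => ?_
    by_cases hx : 0 < x
    · rw [if_pos hx, abs_of_pos hx]; ring
    · rw [if_neg hx, abs_of_nonpos (not_lt.1 hx)]; ring
  rw [h2, tr_sub, tr_smul]

lemma pair_proj {F G P : Matrix n n ℂ} (hF : Proj F) (hG : Proj G) (hP : Proj P) :
    tr (F * G) ≤ 2 * (tr (F * (1 - P)) + tr (G * P)) := by
  have h1 := two_tr_le (F * (1 - P) * G) (F * P * G)
  -- `FG = a + b`
  have e1 : tr (F * G) = tr (star (F * (1 - P) * G) * (F * (1 - P) * G)) +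
      2 * tr (star (F * (1 - P) * G) * (F * P * G)) + tr (star (F * P * G) * (F * P * G)) := by
    have e2 : tr (F * G) = tr (star (F * G) * (F * G)) := by
      rw [star_mul, hF.sa, hG.sa]
      have : G * F * (F * G) = G * (F * F * G) := by noncomm_ring
      rw [this, hF.idem, tr_comm G, mul_assoc, hG.idem]
    have e3 : F * G = F * (1 - P) * G + F * P * G := by noncomm_ring
    have e4 : tr (star (F * P * G) * (F * (1 - P) * G)) =
        tr (star (F * (1 - P) * G) * (F * P * G)) := by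
      rw [← tr_star (star (F * P * G) * (F * (1 - P) * G)), star_mul, star_star]
    rw [e2]
    have e5 : star (F * G) * (F * G) = star (F * (1 - P) * G) * (F * (1 - P) * G) +
        star (F * (1 - P) * G) * (F * P * G) + star (F * P * G) * (F * (1 - P) * G) +
        star (F * P * G) * (F * P * G) := by
      conv_lhs => rw [e3]
      rw [star_add]; noncomm_ring
    rw [e5, tr_add, tr_add, tr_add, e4]; ring
  have h2 : tr (star (F * (1 - P) * G) * (F * (1 - P) * G)) ≤ tr (F * (1 - P)) := by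
    have hq := hP.one_sub
    have e2 : star (F * (1 - P) * G) * (F * (1 - P) * G) =
        G * ((1 - P) * F * (1 - P)) * G := by
      rw [star_mul, star_mul, hG.sa, hF.sa, hq.sa]
      have : G * ((1 - P) * F) * (F * (1 - P) * G) = G * ((1 - P) * (F * F) * (1 - P)) * G := by
        noncomm_ring
      rw [this, hF.idem]
    have h0 : 0 ≤ (1 - P) * F * (1 - P) := by
      have := conj_nonneg hF.nonneg (1 - P)
      rwa [hq.sa] at this
    rw [e2, tr_comm, ← mul_assoc, hG.idem]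
    refine (tr_compress hG h0).trans (le_of_eq ?_)
    rw [tr_comm, ← mul_assoc, hq.idem, tr_comm]
  have h3 : tr (star (F * P * G) * (F * P * G)) ≤ tr (G * P) := by
    have e2 : star (F * P * G) * (F * P * G) = (G * P) * (F * (P * G)) := by
      rw [star_mul, star_mul, hG.sa, hF.sa, hP.sa]
      have : G * (P * F) * (F * P * G) = G * P * (F * F) * P * G := by noncomm_ring
      rw [this, hF.idem]; noncomm_ring
    have h0 : 0 ≤ P * G * P := by
      have := conj_nonneg hG.nonneg P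
      rwa [hP.sa] at this
    rw [e2, tr_comm]
    have : F * (P * G) * (G * P) = F * (P * (G * G) * P) := by noncomm_ring
    rw [this, hG.idem]
    refine (tr_compress hF h0).trans (le_of_eq ?_)
    rw [tr_comm, ← mul_assoc, hP.idem, tr_comm]
  linarith

/-- The pairwise lower bound. -/
lemma pair_bound {A B : Matrix n n ℂ} (hA : 0 ≤ A) (hB : 0 ≤ B) {t₀ : ℝ} (ht : 0 < t₀) (M : ℕ) :
    ∑ k ∈ Finset.range M, (t₀ * 2 ^ k / 4) * tr (lev (t₀ * 2 ^ k) A * lev (t₀ * 2 ^ k) B) ≤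
      (tr (A + B) - trNorm (A - B)) / 2 := by
  obtain ⟨P, hP, hT⟩ := trNorm_sub hA hB
  have e1 : tr (A + B) - trNorm (A - B) = 2 * (tr (A * (1 - P)) + tr (B * P)) := by
    have e2 : tr (P * (A - B)) = tr (A * P) - tr (B * P) := by
      rw [tr_comm, sub_mul, tr_sub]
    have e3 : tr (A * (1 - P)) = tr A - tr (A * P) := by
      rw [mul_sub, mul_one, tr_sub]
    rw [hT, tr_add, tr_sub, e2, e3]
    ring
  have h1 : ∑ k ∈ Finset.range M, (t₀ * 2 ^ k / 2) * tr (lev (t₀ * 2 ^ k) A * (1 - P)) ≤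
      tr (A * (1 - P)) := by
    have := tr_mul_mono hP.one_sub.nonneg (lev_lower hA ht M)
    refine le_trans (le_of_eq ?_) this
    rw [Finset.sum_mul, tr_sum]
    refine Finset.sum_congr rfl fun k _ => ?_
    rw [smul_mul_assoc, tr_smul]
  have h2 : ∑ k ∈ Finset.range M, (t₀ * 2 ^ k / 2) * tr (lev (t₀ * 2 ^ k) B * P) ≤
      tr (B * P) := by
    have := tr_mul_mono hP.nonneg (lev_lower hB ht M)
    refine le_trans (le_of_eq ?_) this
    rw [Finset.sum_mul, tr_sum]
    refine Finset.sum_congr rfl fun k _ => ?_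
    rw [smul_mul_assoc, tr_smul]
  have h3 : ∑ k ∈ Finset.range M, (t₀ * 2 ^ k / 4) *
      tr (lev (t₀ * 2 ^ k) A * lev (t₀ * 2 ^ k) B) ≤
      ∑ k ∈ Finset.range M, (t₀ * 2 ^ k / 2) * tr (lev (t₀ * 2 ^ k) A * (1 - P)) +
      ∑ k ∈ Finset.range M, (t₀ * 2 ^ k / 2) * tr (lev (t₀ * 2 ^ k) B * P) := by
    rw [← Finset.sum_add_distrib]
    refine Finset.sum_le_sum fun k _ => ?_
    have h4 := pair_proj (lev_proj (t₀ * 2 ^ k) A) (lev_proj (t₀ * 2 ^ k) B) hP
    have h5 : 0 < t₀ * 2 ^ k := by positivity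
    nlinarith
  rw [e1]
  linarith

/-- The duality bound for the trace of the square root. -/
lemma dual_bound {ι : Type*} [Fintype ι] {A X : ι → Matrix n n ℂ} (hA : ∀ j, 0 ≤ A j)
    (hX : ∑ j, X j * star (X j) ≤ 1) :
    ∑ j, tr (A j * X j) ≤ tr (CFC.sqrt (∑ j, A j ^ 2)) := by
  have hsA : ∀ j, star (A j) = A j := fun j => (IsSelfAdjoint.of_nonneg (hA j)).star_eq
  have hY : 0 ≤ ∑ j, A j ^ 2 := Finset.sum_nonneg fun j _ => by
    have := star_mul_nonneg (A j)
    rwa [hsA j, ← pow_two] at this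
  set S := CFC.sqrt (∑ j, A j ^ 2) with hS
  have hS0 : 0 ≤ S := CFC.sqrt_nonneg _
  have hSS : S * S = ∑ j, A j ^ 2 := CFC.sqrt_mul_sqrt_self _ hY
  have hsS : star S = S := (IsSelfAdjoint.of_nonneg hS0).star_eq
  refine le_of_forall_pos_le_add fun ε hε => ?_
  obtain ⟨δ, hδ, hδε⟩ : ∃ δ : ℝ, 0 < δ ∧ δ * tr (1 : Matrix n n ℂ) ≤ ε := by
    have h1 : 0 ≤ tr (1 : Matrix n n ℂ) := tr_nonneg (nonneg_iff_posSemidef.2 Matrix.PosSemidef.one)
    refine ⟨ε / (tr (1 : Matrix n n ℂ) + 1), by positivity, ?_⟩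
    rw [div_mul_eq_mul_div, div_le_iff₀ (by positivity)]
    nlinarith
  have hZ : 0 ≤ δ⁻¹ • S := smul_nonneg (by positivity) hS0
  obtain ⟨R, sR, R1, R2, hR0, hR1⟩ := exists_R hZ
  -- `U = S + δ`, `V = U⁻¹ = δ⁻¹ R`
  set U := δ • (1 + δ⁻¹ • S) with hU
  have hUe : U = δ • (1 : Matrix n n ℂ) + S := by
    rw [hU, smul_add, smul_smul, mul_inv_cancel₀ hδ.ne', one_smul]
  have h10 : (0 : Matrix n n ℂ) ≤ 1 := nonneg_iff_posSemidef.2 Matrix.PosSemidef.one
  have hU0 : 0 ≤ U := by rw [hUe]; exact add_nonneg (smul_nonneg hδ.le h10) hS0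
  set V := δ⁻¹ • R with hV
  have hUV : U * V = 1 := by
    rw [hU, hV, smul_mul_smul_comm, R2, mul_inv_cancel₀ hδ.ne', one_smul]
  have hVU : V * U = 1 := by
    rw [hU, hV, smul_mul_smul_comm, R1, inv_mul_cancel₀ hδ.ne', one_smul]
  have hVs : star V = V := by rw [hV, star_smul, sR]; rfl
  have hj : ∀ j, 2 * tr (A j * X j) ≤ tr (U * (X j * star (X j))) + tr (V * (A j ^ 2)) := by
    intro j
    have h1 : 0 ≤ tr (U * ((X j - V * A j) * star (X j - V * A j))) :=
      tr_mul_nonneg hU0 (mul_star_nonneg _)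
    have e1 : U * ((X j - V * A j) * star (X j - V * A j)) =
        U * (X j * star (X j)) - U * (X j * (A j * V)) - (U * V) * (A j * star (X j)) +
        (U * V) * (A j * A j * V) := by
      rw [star_sub, star_mul, hVs, hsA j]; noncomm_ring
    rw [e1, hUV, one_mul, one_mul, tr_add, tr_sub, tr_sub] at h1
    have e2 : tr (U * (X j * (A j * V))) = tr (A j * X j) := by
      rw [tr_comm]
      have : X j * (A j * V) * U = X j * (A j * (V * U)) := by noncomm_ring
      rw [this, hVU, mul_one, tr_comm]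
    have e3 : tr (A j * star (X j)) = tr (A j * X j) := by
      rw [← tr_star (A j * star (X j)), star_mul, star_star, hsA j, tr_comm]
    have e4 : tr (A j * A j * V) = tr (V * (A j ^ 2)) := by rw [tr_comm, pow_two]
    rw [e2, e3, e4] at h1
    linarith
  have h1 := Finset.sum_le_sum fun j (_ : j ∈ Finset.univ) => hj j
  rw [← Finset.mul_sum, Finset.sum_add_distrib] at h1
  have e1 : ∑ j, tr (U * (X j * star (X j))) = tr (U * ∑ j, X j * star (X j)) := by
    rw [Finset.mul_sum, tr_sum]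
  have e2 : ∑ j, tr (V * (A j ^ 2)) = tr (V * (S * S)) := by
    rw [hSS, Finset.mul_sum, tr_sum]
  have h2 : tr (U * ∑ j, X j * star (X j)) ≤ δ * tr (1 : Matrix n n ℂ) + tr S := by
    have := tr_mul_mono' hU0 hX
    rw [mul_one] at this
    refine this.trans (le_of_eq ?_)
    rw [hUe, tr_add, tr_smul]
  have h3 : tr (V * (S * S)) ≤ tr S := by
    have e3 : V * S = 1 - R := by
      have : R * (1 + δ⁻¹ • S) = R + δ⁻¹ • R * S := by
        rw [mul_add, mul_one, mul_smul_comm, smul_mul_assoc]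
      rw [this] at R1
      rw [hV, ← R1]; abel
    rw [← mul_assoc, e3]
    have h4 : 1 - R ≤ 1 := sub_le_self _ hR0
    have := tr_mul_mono hS0 h4
    rwa [one_mul] at this
  rw [e1, e2] at h1
  linarith

/-- The main inequality, ordered-pairs form. -/
theorem main_ineq {ι : Type*} [Fintype ι] [DecidableEq ι] {A : ι → Matrix n n ℂ}
    (hA : ∀ j, 0 ≤ A j) :
    ∑ j, tr (A j) - tr (CFC.sqrt (∑ j, A j ^ 2)) ≤
      28 * ∑ j, ∑ l ∈ Finset.univ.erase j, (tr (A j + A l) - trNorm (A j - A l)) := by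
  refine le_of_forall_pos_le_add fun ε hε => ?_
  have h10 : (0 : Matrix n n ℂ) ≤ 1 := nonneg_iff_posSemidef.2 Matrix.PosSemidef.one
  have htr1 : 0 ≤ tr (1 : Matrix n n ℂ) := tr_nonneg h10
  obtain ⟨t₀, ht, htε⟩ : ∃ t₀ : ℝ, 0 < t₀ ∧
      t₀ * (2 * Fintype.card ι * tr (1 : Matrix n n ℂ)) ≤ ε := by
    have h1 : 0 ≤ 2 * (Fintype.card ι : ℝ) * tr (1 : Matrix n n ℂ) := by positivity
    refine ⟨ε / (2 * Fintype.card ι * tr (1 : Matrix n n ℂ) + 1), by positivity, ?_⟩
    rw [div_mul_eq_mul_div, div_le_iff₀ (by positivity)]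
    nlinarith
  -- a bound on the spectra
  obtain ⟨M, hM⟩ : ∃ M : ℕ, ∀ j, ∀ x ∈ spectrum ℝ (A j), x < t₀ * 2 ^ M := by
    have h1 : (⋃ j, spectrum ℝ (A j)).Finite := Set.finite_iUnion fun j =>
      Matrix.finite_real_spectrum (A := A j)
    obtain ⟨C, hC⟩ := h1.bddAbove
    obtain ⟨M, hM⟩ := pow_unbounded_of_one_lt (C / t₀) (show (1 : ℝ) < 2 by norm_num)
    refine ⟨M, fun j x hx => ?_⟩
    have h2 : x ≤ C := hC (Set.mem_iUnion.2 ⟨j, hx⟩)
    rw [div_lt_iff₀ ht] at hM
    linarith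
  obtain ⟨Q, hQ⟩ := exists_levels A ht
  obtain ⟨X, hX1, hX2⟩ := exists_X hQ M
  have hdual := dual_bound hA hX1
  set m : ℕ → ℝ := fun k => exc (fun j => lev (t₀ * 2 ^ k) (A j)) with hm
  have hm0 : ∀ k, 0 ≤ m k := fun k => exc_nonneg fun j => lev_proj _ _
  have hmM : m M = 0 := by
    simp only [hm, exc]
    have : ∑ j, lev (t₀ * 2 ^ M) (A j) = 0 :=
      Finset.sum_eq_zero fun j _ => lev_eq_zero (hM j)
    rw [this, mul_zero, tr_zero, sub_zero]
  -- the upper bound
  have hup : ∀ j, tr (A j) - tr (A j * X j) ≤ t₀ * (2 * tr (1 : Matrix n n ℂ)) +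
      ∑ k ∈ Finset.range M, (2 * (t₀ * 2 ^ k)) *
        (tr (lev (t₀ * 2 ^ k) (A j) - lev (t₀ * 2 ^ (k + 1)) (A j)) -
          tr ((lev (t₀ * 2 ^ k) (A j) - lev (t₀ * 2 ^ (k + 1)) (A j)) * X j)) := by
    intro j
    have hXj : X j * star (X j) ≤ 1 := by
      refine le_trans ?_ hX1
      exact Finset.single_le_sum (f := fun j => X j * star (X j))
        (fun l _ => mul_star_nonneg _) (Finset.mem_univ j)
    set W := (1 / 2 : ℝ) • ((1 - X j) + star (1 - X j)) with hW
    have hWv : ∀ B : Matrix n n ℂ, star B = B → tr (B * W) = tr B - tr (B * X j) := by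
      intro B hB
      have e1 : tr (B * star (1 - X j)) = tr (B * (1 - X j)) := by
        rw [← tr_star (B * star (1 - X j)), star_mul, star_star, hB, tr_comm]
      rw [hW, mul_smul_comm, tr_smul, mul_add, tr_add, e1, mul_sub, mul_one, tr_sub]
      ring
    have hW0 : 0 ≤ W := by
      have h1 : 0 ≤ (1 - X j) * star (1 - X j) + (1 - X j * star (X j)) :=
        add_nonneg (mul_star_nonneg _) (sub_nonneg.2 hXj)
      have e1 : (1 - X j) * star (1 - X j) + (1 - X j * star (X j)) =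
          (1 - X j) + star (1 - X j) := by
        rw [star_sub, star_one]; noncomm_ring
      rw [e1] at h1
      exact smul_nonneg (by norm_num) h1
    have hW2 : tr W ≤ 2 * tr (1 : Matrix n n ℂ) := by
      have h1 : 0 ≤ (1 + X j) * star (1 + X j) + (1 - X j * star (X j)) :=
        add_nonneg (mul_star_nonneg _) (sub_nonneg.2 hXj)
      have e1 : (1 + X j) * star (1 + X j) + (1 - X j * star (X j)) =
          (1 + X j) + star (1 + X j) := by
        rw [star_add, star_one]; noncomm_ring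
      rw [e1] at h1
      have h2 := tr_nonneg h1
      have e2 : tr (star (1 + X j)) = tr (1 + X j) := tr_star _
      rw [tr_add, e2, tr_add] at h2
      have e3 : tr W = tr (1 : Matrix n n ℂ) - tr (X j) := by
        have := hWv 1 (star_one _)
        rwa [one_mul, one_mul] at this
      rw [e3]
      linarith
    rw [← hWv (A j) (IsSelfAdjoint.of_nonneg (hA j)).star_eq]
    refine (tr_mul_mono hW0 (lev_upper (hA j) ht M (hM j))).trans ?_
    rw [add_mul, tr_add, smul_mul_assoc, one_mul, tr_smul, Finset.sum_mul, tr_sum]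
    refine add_le_add (mul_le_mul_of_nonneg_left hW2 ht.le) (Finset.sum_le_sum fun k _ => ?_)
    rw [smul_mul_assoc, tr_smul, hWv]
    rw [star_sub, (lev_proj _ _).sa, (lev_proj _ _).sa]
  have hsum : ∑ j, tr (A j) - ∑ j, tr (A j * X j) ≤
      t₀ * (2 * Fintype.card ι * tr (1 : Matrix n n ℂ)) +
      ∑ k ∈ Finset.range M, (2 * (t₀ * 2 ^ k)) * (5 * m k + 4 * m (k + 1)) := by
    rw [← Finset.sum_sub_distrib]
    refine (Finset.sum_le_sum fun j _ => hup j).trans ?_
    rw [Finset.sum_add_distrib, Finset.sum_const, Finset.card_univ, nsmul_eq_mul,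
      Finset.sum_comm]
    refine add_le_add (le_of_eq (by ring)) (Finset.sum_le_sum fun k hk => ?_)
    rw [← Finset.mul_sum]
    refine mul_le_mul_of_nonneg_left ?_ (by positivity)
    have := hX2 k (Finset.mem_range.1 hk)
    rw [tr_sum] at this
    rw [Finset.sum_sub_distrib]
    linarith
  -- the sum over the levels
  have hshift : ∑ k ∈ Finset.range M, (t₀ * 2 ^ (k + 1)) * m (k + 1) ≤
      ∑ k ∈ Finset.range M, (t₀ * 2 ^ k) * m k := by
    have h1 := Finset.sum_range_succ' (fun k => (t₀ * 2 ^ k) * m k) M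
    have h2 := Finset.sum_range_succ (fun k => (t₀ * 2 ^ k) * m k) M
    simp only [hmM, mul_zero, add_zero] at h2
    have h3 : 0 ≤ t₀ * 2 ^ 0 * m 0 := mul_nonneg (by positivity) (hm0 0)
    linarith
  have hlev : ∑ k ∈ Finset.range M, (2 * (t₀ * 2 ^ k)) * (5 * m k + 4 * m (k + 1)) ≤
      14 * ∑ k ∈ Finset.range M, (t₀ * 2 ^ k) * m k := by
    have e1 : ∑ k ∈ Finset.range M, (2 * (t₀ * 2 ^ k)) * (5 * m k + 4 * m (k + 1)) =
        10 * ∑ k ∈ Finset.range M, (t₀ * 2 ^ k) * m k +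
        4 * ∑ k ∈ Finset.range M, (t₀ * 2 ^ (k + 1)) * m (k + 1) := by
      rw [Finset.mul_sum, Finset.mul_sum, ← Finset.sum_add_distrib]
      refine Finset.sum_congr rfl fun k _ => ?_
      ring
    rw [e1]
    linarith
  -- the excess is the sum over pairs
  have hexc : ∀ k, m k = ∑ j, ∑ l ∈ Finset.univ.erase j,
      tr (lev (t₀ * 2 ^ k) (A j) * lev (t₀ * 2 ^ k) (A l)) := by
    intro k
    simp only [hm, exc]
    rw [Finset.sum_mul_sum, tr_sum, tr_sum, ← Finset.sum_sub_distrib]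
    refine Finset.sum_congr rfl fun j _ => ?_
    rw [tr_sum, ← Finset.add_sum_erase _ _ (Finset.mem_univ j), (lev_proj _ _).idem]
    ring
  have hpairs : ∑ k ∈ Finset.range M, (t₀ * 2 ^ k) * m k ≤
      2 * ∑ j, ∑ l ∈ Finset.univ.erase j, (tr (A j + A l) - trNorm (A j - A l)) := by
    have e1 : ∑ k ∈ Finset.range M, (t₀ * 2 ^ k) * m k =
        ∑ j, ∑ l ∈ Finset.univ.erase j, ∑ k ∈ Finset.range M, (t₀ * 2 ^ k) *
          tr (lev (t₀ * 2 ^ k) (A j) * lev (t₀ * 2 ^ k) (A l)) := by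
      rw [Finset.sum_congr rfl fun k _ => by rw [hexc k]]
      rw [Finset.sum_congr rfl fun k _ => Finset.mul_sum _ _ _, Finset.sum_comm]
      refine Finset.sum_congr rfl fun j _ => ?_
      rw [Finset.sum_congr rfl fun k _ => Finset.mul_sum _ _ _, Finset.sum_comm]
    rw [e1, Finset.mul_sum]
    refine Finset.sum_le_sum fun j _ => ?_
    rw [Finset.mul_sum]
    refine Finset.sum_le_sum fun l _ => ?_
    have h1 := pair_bound (hA j) (hA l) ht M
    have e2 : ∑ k ∈ Finset.range M, (t₀ * 2 ^ k) *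
        tr (lev (t₀ * 2 ^ k) (A j) * lev (t₀ * 2 ^ k) (A l)) =
        4 * ∑ k ∈ Finset.range M, (t₀ * 2 ^ k / 4) *
        tr (lev (t₀ * 2 ^ k) (A j) * lev (t₀ * 2 ^ k) (A l)) := by
      rw [Finset.mul_sum]
      refine Finset.sum_congr rfl fun k _ => ?_
      ring
    rw [e2]
    linarith
  linarith

end Pool.Agent.R993.MT
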