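import Pool.Agent.R993.MTLevel

set_option autoImplicit false

open Matrix
open scoped MatrixOrder ComplexOrder

namespace Pool.Agent.R993.MT

variable {n : Type*} [Fintype n] [DecidableEq n]

lemma tr_ge_of_contraction {P Z q : Matrix n n ℂ} (hP : 0 ≤ P) (hq : Proj q)
    (h1 : q * Z = Z) (h2 : Z * q = Z) (hZ : Z * star Z ≤ q) : - tr (P * q) ≤ tr (P * Z) := by
  have sP : star P = P := (IsSelfAdjoint.of_nonneg hP).star_eq
  have h3 : 0 ≤ (Z + q) * star (Z + q) := mul_star_nonneg _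
  have e1 : (Z + q) * star (Z + q) = Z * star Z + Z + star Z + q := by
    rw [star_add, hq.sa, add_mul, mul_add, mul_add, hq.idem, h2]
    have : q * star Z = star Z := by
      have := congrArg star h2
      rwa [star_mul, hq.sa] at this
    rw [this]; abel
  have h4 : 0 ≤ q + Z + star Z + q := by
    refine h3.trans ?_
    rw [e1]
    gcongr
  have h5 := tr_mul_nonneg hP h4
  have e2 : tr (P * star Z) = tr (P * Z) := by
    rw [← tr_star (P * star Z), star_mul, star_star, sP, tr_comm]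
  rw [mul_add, mul_add, mul_add, tr_add, tr_add, tr_add, e2] at h5
  linarith

section chain

variable {ι : Type*} [Fintype ι] {F : ℕ → ι → Matrix n n ℂ} {Q : ℕ → Matrix n n ℂ}
  (h : ∀ k, Level (F k) (F (k + 1)) (Q k) (Q (k + 1)))
include h

lemma chain_Q {k l : ℕ} (hkl : k ≤ l) : Q k * Q l = Q l := by
  induction l, hkl using Nat.le_induction with
  | base => exact (h k).Q_proj.idem
  | succ l hl ih =>
    rw [← (h l).Qmulq, ← mul_assoc, ih]

lemma chain_Q' {k l : ℕ} (hkl : k ≤ l) : Q l * Q k = Q l := by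
  have := congrArg star (chain_Q h hkl)
  rwa [star_mul, (h k).Q_proj.sa, (h l).Q_proj.sa] at this

lemma chain_QF {k l : ℕ} (hkl : k ≤ l) (j : ι) : Q k * F l j = F l j := by
  rw [← (h l).QF j, ← mul_assoc, chain_Q h hkl]

lemma chain_FQ {k l : ℕ} (hkl : k ≤ l) (j : ι) : F l j * Q k = F l j := by
  have := congrArg star (chain_QF h hkl j)
  rwa [star_mul, (h k).Q_proj.sa, ((h l).F_proj j).sa] at this

lemma chain_D {k l : ℕ} (hkl : k ≠ l) : (Q k - Q (k + 1)) * (Q l - Q (l + 1)) = 0 := by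
  rcases lt_or_gt_of_ne hkl with h1 | h1
  · rw [sub_mul, mul_sub, mul_sub, chain_Q h h1.le, chain_Q h (h1.le.trans (Nat.le_succ l)),
      chain_Q h h1, chain_Q h (Nat.succ_le_succ h1.le), sub_self]
  · rw [mul_sub, sub_mul, sub_mul, chain_Q' h h1.le, chain_Q' h (h1.le.trans (Nat.le_succ k)),
      chain_Q' h h1, chain_Q' h (Nat.succ_le_succ h1.le)]
    abel

lemma chain_PD {k l : ℕ} (hlk : l < k) (j : ι) :
    (F k j - F (k + 1) j) * (Q l - Q (l + 1)) = 0 := by
  rw [sub_mul, mul_sub, mul_sub, chain_FQ h hlk.le, chain_FQ h hlk,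
    chain_FQ h (hlk.le.trans (Nat.le_succ k)), chain_FQ h (hlk.trans (Nat.lt_succ_self k))]
  abel

variable {X : ℕ → ι → Matrix n n ℂ}
  (hX1 : ∀ k j, (Q k - Q (k + 1)) * X k j = X k j)
  (hX2 : ∀ k j, X k j * (Q k - Q (k + 1)) = X k j)
  (hX3 : ∀ k, ∑ j, X k j * star (X k j) ≤ Q k - Q (k + 1))
include hX1 hX2 hX3

omit hX1 in
lemma chain_contr {a b : ℕ} (hab : a ≤ b) :
    ∑ j, (∑ k ∈ Finset.Ico a b, X k j) * star (∑ k ∈ Finset.Ico a b, X k j) ≤ Q a - Q b := by
  have h1 : ∀ j, (∑ k ∈ Finset.Ico a b, X k j) * star (∑ k ∈ Finset.Ico a b, X k j) =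
      ∑ k ∈ Finset.Ico a b, X k j * star (X k j) := by
    intro j
    rw [star_sum, Finset.sum_mul_sum]
    refine Finset.sum_congr rfl fun k hk => ?_
    rw [Finset.sum_eq_single k]
    · intro l _ hl
      have e1 : star (X l j) = (Q l - Q (l + 1)) * star (X l j) := by
        have := congrArg star (hX2 l j)
        rw [star_mul, star_sub, (h l).Q_proj.sa, (h l).q_proj.sa] at this
        exact this.symm
      rw [← hX2 k j, e1, mul_assoc, ← mul_assoc (Q k - Q (k + 1)), chain_D h (Ne.symm hl),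
        zero_mul, mul_zero]
    · intro hk'; exact absurd hk hk'
  rw [Finset.sum_congr rfl fun j _ => h1 j, Finset.sum_comm]
  refine (Finset.sum_le_sum fun k _ => hX3 k).trans (le_of_eq ?_)
  have := Finset.sum_Ico_sub (fun k => - Q k) hab
  simp only [neg_sub_neg] at this
  rw [this]

lemma chain_level (M k : ℕ) (hk : k < M)
    (hX4 : tr (∑ j, (F k j - F (k + 1) j)) - 7 / 2 * tr ((∑ j, (F k j - F (k + 1) j)) * Q (k + 1))
      - 1 / 2 * (exc (F k) - exc (F (k + 1))) ≤ ∑ j, tr ((F k j - F (k + 1) j) * X k j)) :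
    tr (∑ j, (F k j - F (k + 1) j)) - (5 * exc (F k) + 4 * exc (F (k + 1))) ≤
      ∑ j, tr ((F k j - F (k + 1) j) * ∑ l ∈ Finset.range M, X l j) := by
  have hsplit : ∀ j, tr ((F k j - F (k + 1) j) * X k j) -
      tr ((F k j - F (k + 1) j) * Q (k + 1)) ≤
      tr ((F k j - F (k + 1) j) * ∑ l ∈ Finset.range M, X l j) := by
    intro j
    have e1 : ∑ l ∈ Finset.range M, X l j =
        ∑ l ∈ Finset.range k, X l j + (X k j + ∑ l ∈ Finset.Ico (k + 1) M, X l j) := by
      simp only [Finset.range_eq_Ico]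
      rw [← Finset.sum_Ico_consecutive _ (Nat.zero_le k) hk.le,
        Finset.sum_eq_sum_Ico_succ_bot hk]
    have e2 : (F k j - F (k + 1) j) * ∑ l ∈ Finset.range k, X l j = 0 := by
      rw [Finset.mul_sum]
      refine Finset.sum_eq_zero fun l hl => ?_
      rw [← hX1 l j, ← mul_assoc, chain_PD h (Finset.mem_range.1 hl), zero_mul]
    have e3 : - tr ((F k j - F (k + 1) j) * Q (k + 1)) ≤
        tr ((F k j - F (k + 1) j) * ∑ l ∈ Finset.Ico (k + 1) M, X l j) := by
      refine tr_ge_of_contraction ((h k).P_proj j).nonneg (h k).q_proj ?_ ?_ ?_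
      · rw [Finset.mul_sum]
        refine Finset.sum_congr rfl fun l hl => ?_
        have hl' := (Finset.mem_Ico.1 hl).1
        rw [← hX1 l j, ← mul_assoc, mul_sub, chain_Q h hl', chain_Q h (hl'.trans (Nat.le_succ l))]
      · rw [Finset.sum_mul]
        refine Finset.sum_congr rfl fun l hl => ?_
        have hl' := (Finset.mem_Ico.1 hl).1
        rw [← hX2 l j, mul_assoc, sub_mul, chain_Q' h hl', chain_Q' h (hl'.trans (Nat.le_succ l))]
      · have h1 := chain_contr h hX2 hX3 hk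
        have h2 : (∑ l ∈ Finset.Ico (k + 1) M, X l j) * star (∑ l ∈ Finset.Ico (k + 1) M, X l j) ≤
            ∑ j, (∑ l ∈ Finset.Ico (k + 1) M, X l j) * star (∑ l ∈ Finset.Ico (k + 1) M, X l j) :=
          Finset.single_le_sum (f := fun j => (∑ l ∈ Finset.Ico (k + 1) M, X l j) *
            star (∑ l ∈ Finset.Ico (k + 1) M, X l j)) (fun j _ => mul_star_nonneg _)
            (Finset.mem_univ j)
        refine (h2.trans h1).trans ?_
        exact sub_le_self _ (h M).Q_proj.nonneg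
    rw [e1, mul_add, e2, zero_add, mul_add, tr_add]
    linarith
  have h1 := Finset.sum_le_sum fun j (_ : j ∈ Finset.univ) => hsplit j
  rw [Finset.sum_sub_distrib] at h1
  have e4 : ∑ j, tr ((F k j - F (k + 1) j) * Q (k + 1)) =
      tr ((∑ j, (F k j - F (k + 1) j)) * Q (k + 1)) := by
    rw [Finset.sum_mul, tr_sum]
  rw [e4] at h1
  have h2 := (h k).eps_le
  linarith

end chain

/-- Existence of the good contraction. -/
theorem exists_X {ι : Type*} [Fintype ι] {F : ℕ → ι → Matrix n n ℂ} {Q : ℕ → Matrix n n ℂ}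
    (h : ∀ k, Level (F k) (F (k + 1)) (Q k) (Q (k + 1))) (M : ℕ) :
    ∃ X : ι → Matrix n n ℂ, ∑ j, X j * star (X j) ≤ 1 ∧ ∀ k < M,
      tr (∑ j, (F k j - F (k + 1) j)) - (5 * exc (F k) + 4 * exc (F (k + 1))) ≤
      ∑ j, tr ((F k j - F (k + 1) j) * X j) := by
  choose X hX1 hX2 hX3 hX4 using fun k => (h k).main
  refine ⟨fun j => ∑ l ∈ Finset.range M, X l j, ?_, fun k hk =>
    chain_level h hX1 hX2 hX3 M k hk (hX4 k)⟩
  have h1 := chain_contr h hX2 hX3 (Nat.zero_le M)
  rw [← Finset.range_eq_Ico] at h1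
  refine h1.trans ?_
  refine le_trans (sub_le_self _ (h M).Q_proj.nonneg) (h 0).Q_proj.le_one

end Pool.Agent.R993.MT
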