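import Pool.Agent.R993.MTBasic

set_option autoImplicit false

open Matrix
open scoped MatrixOrder ComplexOrder

namespace Pool.Agent.R993.MT

variable {n : Type*} [Fintype n] [DecidableEq n]

/-- The inverse of `1 + Z` for `Z ≥ 0`. -/
lemma exists_R {Z : Matrix n n ℂ} (hZ : 0 ≤ Z) : ∃ R : Matrix n n ℂ,
    star R = R ∧ R * (1 + Z) = 1 ∧ (1 + Z) * R = 1 ∧ 0 ≤ R ∧ R ≤ 1 := by
  have hpd : (1 + Z).PosDef := by
    have h1 : (1 : Matrix n n ℂ).PosDef := Matrix.PosDef.one
    exact h1.add_posSemidef (nonneg_iff_posSemidef.1 hZ)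
  have hu : IsUnit (1 + Z) := hpd.isUnit
  have hdet : IsUnit (1 + Z).det := (Matrix.isUnit_iff_isUnit_det _).1 hu
  set R : Matrix n n ℂ := (1 + Z)⁻¹ with hR
  have h1 : R * (1 + Z) = 1 := Matrix.nonsing_inv_mul _ hdet
  have h2 : (1 + Z) * R = 1 := Matrix.mul_nonsing_inv _ hdet
  have hsZ : star Z = Z := (IsSelfAdjoint.of_nonneg hZ).star_eq
  have hs : star R = R := by
    have h3 : star R * (1 + Z) = 1 := by
      have := congrArg star h2
      rwa [star_mul, star_add, star_one, hsZ] at this
    calc star R = star R * ((1 + Z) * R) := by rw [h2, mul_one]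
      _ = star R * (1 + Z) * R := by rw [mul_assoc]
      _ = R := by rw [h3, one_mul]
  have hR0 : 0 ≤ R := by
    have h3 : R = star R * (1 + Z) * R := by rw [hs, h1, one_mul]
    rw [h3]
    have h10 : (0 : Matrix n n ℂ) ≤ 1 := nonneg_iff_posSemidef.2 Matrix.PosSemidef.one
    exact conj_nonneg (add_nonneg h10 hZ) R
  refine ⟨R, hs, h1, h2, hR0, ?_⟩
  have h4 : 1 - R = star R * (Z + Z * Z) * R := by
    have e1 : R * Z = 1 - R := by
      have : R * (1 + Z) = R + R * Z := by rw [mul_add, mul_one]
      rw [this] at h1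
      rw [← h1]; abel
    have e2 : (Z + Z * Z) = Z * (1 + Z) := by rw [mul_add, mul_one]
    rw [hs, e2, mul_assoc, mul_assoc, h2, mul_one, e1]
  rw [← sub_nonneg, h4]
  refine conj_nonneg (add_nonneg hZ ?_) R
  have := star_mul_nonneg Z
  rwa [hsZ] at this

/-- The data of one level. -/
structure Level {ι : Type*} [Fintype ι] (F G : ι → Matrix n n ℂ) (Q q : Matrix n n ℂ) : Prop where
  F_proj : ∀ j, Proj (F j)
  G_proj : ∀ j, Proj (G j)
  FG : ∀ j, F j * G j = G j
  Q_proj : Proj Q
  q_proj : Proj q
  QF : ∀ j, Q * F j = F j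
  qG : ∀ j, q * G j = G j
  Qmulq : Q * q = q
  trQ : tr Q ≤ ∑ j, tr (F j)
  trq : tr q ≤ ∑ j, tr (G j)

/-- The excess `Tr S² - Tr S` of a sum of projections. -/
noncomputable def exc {ι : Type*} [Fintype ι] (F : ι → Matrix n n ℂ) : ℝ :=
  tr ((∑ j, F j) * (∑ j, F j)) - tr (∑ j, F j)

lemma star_sum_proj {ι : Type*} [Fintype ι] {F : ι → Matrix n n ℂ} (h : ∀ j, Proj (F j)) :
    star (∑ j, F j) = ∑ j, F j := by
  rw [star_sum]
  exact Finset.sum_congr rfl fun j _ => (h j).sa

lemma exc_nonneg {ι : Type*} [Fintype ι] {P : ι → Matrix n n ℂ} (h : ∀ j, Proj (P j)) :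
    0 ≤ exc P := by
  classical
  unfold exc
  have e : tr ((∑ j, P j) * (∑ j, P j)) = ∑ j, ∑ l, tr (P j * P l) := by
    rw [Finset.sum_mul_sum, tr_sum]
    exact Finset.sum_congr rfl fun j _ => tr_sum _ _
  rw [e, tr_sum, ← Finset.sum_sub_distrib]
  refine Finset.sum_nonneg fun j _ => ?_
  have h1 : tr (P j * P j) ≤ ∑ l, tr (P j * P l) :=
    Finset.single_le_sum (f := fun l => tr (P j * P l))
      (fun l _ => tr_mul_nonneg (h j).nonneg (h l).nonneg) (Finset.mem_univ j)
  rw [(h j).idem] at h1
  linarith

namespace Level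

variable {ι : Type*} [Fintype ι] {F G : ι → Matrix n n ℂ} {Q q : Matrix n n ℂ}
  (h : Level F G Q q)
include h

lemma GF (j : ι) : G j * F j = G j := by
  have := congrArg star (h.FG j)
  rwa [star_mul, (h.F_proj j).sa, (h.G_proj j).sa] at this

lemma qQ : q * Q = q := by
  have := congrArg star h.Qmulq
  rwa [star_mul, h.Q_proj.sa, h.q_proj.sa] at this

lemma FQ (j : ι) : F j * Q = F j := by
  have := congrArg star (h.QF j)
  rwa [star_mul, h.Q_proj.sa, (h.F_proj j).sa] at this

lemma Gq (j : ι) : G j * q = G j := by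
  have := congrArg star (h.qG j)
  rwa [star_mul, h.q_proj.sa, (h.G_proj j).sa] at this

lemma QG (j : ι) : Q * G j = G j := by
  rw [← h.qG j, ← mul_assoc, h.Qmulq]

lemma P_proj (j : ι) : Proj (F j - G j) := (h.F_proj j).sub (h.G_proj j) (h.FG j)

lemma D_proj : Proj (Q - q) := h.Q_proj.sub h.q_proj h.Qmulq

lemma eps_le : tr ((∑ j, (F j - G j)) * q) ≤ exc F + exc G := by
  set S := ∑ j, F j with hS
  set S' := ∑ j, G j with hS'
  set N := ∑ j, (F j - G j) with hN
  have hNS : N = S - S' := by rw [hN, hS, hS', Finset.sum_sub_distrib]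
  have sS : star S = S := star_sum_proj h.F_proj
  have sS' : star S' = S' := star_sum_proj h.G_proj
  have QS : Q * S = S := by rw [hS, Finset.mul_sum]; exact Finset.sum_congr rfl fun j _ => h.QF j
  have QS' : Q * S' = S' := by
    rw [hS', Finset.mul_sum]; exact Finset.sum_congr rfl fun j _ => h.QG j
  have qS' : q * S' = S' := by
    rw [hS', Finset.mul_sum]; exact Finset.sum_congr rfl fun j _ => h.qG j
  have hmF : exc F = tr (S * S) - tr S := rfl
  have hmG : exc G = tr (S' * S') - tr S' := rfl
  have tQ : tr Q ≤ tr S := by rw [hS, tr_sum]; exact h.trQ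
  have tq : tr q ≤ tr S' := by rw [hS', tr_sum]; exact h.trq
  -- squares
  have hV : tr ((S - Q) * (S - Q)) = tr (S * S) - 2 * tr S + tr Q := by
    have e : (S - Q) * (S - Q) = S * S - S * Q - Q * S + Q * Q := by noncomm_ring
    rw [e, tr_add, tr_sub, tr_sub, tr_comm S Q, QS, h.Q_proj.idem]; ring
  have hY : tr ((S' - q) * (S' - q)) = tr (S' * S') - 2 * tr S' + tr q := by
    have e : (S' - q) * (S' - q) = S' * S' - S' * q - q * S' + q * q := by noncomm_ring
    rw [e, tr_add, tr_sub, tr_sub, tr_comm S' q, qS', h.q_proj.idem]; ring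
  have hVY : tr ((S - Q) * (S' - q)) = tr (S * S') - tr (S * q) - tr S' + tr q := by
    have e : (S - Q) * (S' - q) = S * S' - S * q - Q * S' + Q * q := by noncomm_ring
    rw [e, tr_add, tr_sub, tr_sub, QS', h.Qmulq]
  have hCS : -2 * tr ((S - Q) * (S' - q)) ≤
      tr ((S - Q) * (S - Q)) + tr ((S' - q) * (S' - q)) := by
    have := two_tr_le (-(S - Q)) (S' - q)
    have e1 : star (-(S - Q)) = -(S - Q) := by
      rw [star_neg, star_sub, sS, h.Q_proj.sa]
    have e2 : star (S' - q) = S' - q := by rw [star_sub, sS', h.q_proj.sa]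
    rw [e1, e2, neg_mul, tr_neg, neg_mul_neg] at this
    linarith
  -- epsilon
  have heps : tr (N * q) = tr (S * q) - tr S' := by
    rw [hNS, sub_mul, tr_sub, tr_comm S' q, qS']
  have hSS' : tr (S * S') = tr (S' * S') + tr (N * S') := by
    rw [hNS, sub_mul, tr_sub]; ring
  have hSS : tr (S * S) = tr (S' * S') + 2 * tr (N * S') + tr (N * N) := by
    have e : S * S = S' * S' + N * S' + S' * N + N * N := by rw [hNS]; noncomm_ring
    rw [e, tr_add, tr_add, tr_add, tr_comm S' N]; ring
  have hNN : tr N ≤ tr (N * N) := by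
    have := exc_nonneg h.P_proj
    unfold exc at this
    linarith
  have hN1 : tr N = tr S - tr S' := by rw [hNS, tr_sub]
  rw [hmF, hmG, heps]
  nlinarith

/-- The main estimate of one level. -/
theorem main : ∃ X : ι → Matrix n n ℂ, (∀ j, (Q - q) * X j = X j) ∧ (∀ j, X j * (Q - q) = X j) ∧
    ∑ j, X j * star (X j) ≤ Q - q ∧
    tr (∑ j, (F j - G j)) - 7 / 2 * tr ((∑ j, (F j - G j)) * q) - 1 / 2 * (exc F - exc G) ≤
      ∑ j, tr ((F j - G j) * X j) := by
  set S := ∑ j, F j with hS
  set S' := ∑ j, G j with hS'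
  set N := ∑ j, (F j - G j) with hN
  obtain ⟨D, hD⟩ : ∃ D, D = Q - q := ⟨_, rfl⟩
  have hDp : Proj D := hD ▸ h.D_proj
  rw [← hD]
  have hNS : N = S - S' := by rw [hN, hS, hS', Finset.sum_sub_distrib]
  have sS : star S = S := star_sum_proj h.F_proj
  have sS' : star S' = S' := star_sum_proj h.G_proj
  have QS : Q * S = S := by rw [hS, Finset.mul_sum]; exact Finset.sum_congr rfl fun j _ => h.QF j
  have QS' : Q * S' = S' := by
    rw [hS', Finset.mul_sum]; exact Finset.sum_congr rfl fun j _ => h.QG j
  have qS' : q * S' = S' := by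
    rw [hS', Finset.mul_sum]; exact Finset.sum_congr rfl fun j _ => h.qG j
  have S'q : S' * q = S' := by
    rw [hS', Finset.sum_mul]; exact Finset.sum_congr rfl fun j _ => h.Gq j
  have QN : Q * N = N := by rw [hNS, mul_sub, QS, QS']
  have hmF : exc F = tr (S * S) - tr S := rfl
  have hmG : exc G = tr (S' * S') - tr S' := rfl
  have hN0 : 0 ≤ N := Finset.sum_nonneg fun j _ => (h.P_proj j).nonneg
  have hS'0 : 0 ≤ S' := Finset.sum_nonneg fun j _ => (h.G_proj j).nonneg
  have hN1 : tr N = tr S - tr S' := by rw [hNS, tr_sub]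
  -- the operators T
  set T : ι → Matrix n n ℂ := fun j => D * (F j - G j) * D with hT
  have hT0 : ∀ j, 0 ≤ T j := fun j => by
    have := conj_nonneg (h.P_proj j).nonneg D
    rwa [hDp.sa] at this
  have hTs : ∀ j, star (T j) = T j := fun j => (IsSelfAdjoint.of_nonneg (hT0 j)).star_eq
  have DT : ∀ j, D * T j = T j := fun j => by
    simp only [hT]; rw [← mul_assoc, ← mul_assoc, hDp.idem]
  have TD : ∀ j, T j * D = T j := fun j => by
    simp only [hT]; rw [mul_assoc, hDp.idem]
  set Z := ∑ j, T j with hZ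
  have hZ0 : 0 ≤ Z := Finset.sum_nonneg fun j _ => hT0 j
  have hZs : star Z = Z := (IsSelfAdjoint.of_nonneg hZ0).star_eq
  have DZ : D * Z = Z := by rw [hZ, Finset.mul_sum]; exact Finset.sum_congr rfl fun j _ => DT j
  have ZD : Z * D = Z := by rw [hZ, Finset.sum_mul]; exact Finset.sum_congr rfl fun j _ => TD j
  obtain ⟨R, sR, R1, R2, hR0, hR1⟩ := exists_R hZ0
  have RZ : R * Z = 1 - R := by
    have : R * (1 + Z) = R + R * Z := by rw [mul_add, mul_one]
    rw [this] at R1
    rw [← R1]; abel
  have ZR : Z * R = 1 - R := by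
    have : (1 + Z) * R = R + Z * R := by rw [add_mul, one_mul]
    rw [this] at R2
    rw [← R2]; abel
  have RD1 : R * (1 - D) = 1 - D := by
    have e : (1 + Z) * (1 - D) = 1 - D := by
      have : (1 + Z) * (1 - D) = 1 - D + (Z - Z * D) := by noncomm_ring
      rw [this, ZD, sub_self, add_zero]
    calc R * (1 - D) = R * ((1 + Z) * (1 - D)) := by rw [e]
      _ = 1 - D := by rw [← mul_assoc, R1, one_mul]
  have DR1 : (1 - D) * R = 1 - D := by
    have := congrArg star RD1
    rwa [star_mul, star_sub, star_one, hDp.sa, sR] at this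
  have RD : R * D = D * R := by
    have e1 : R - R * D = 1 - D := by rw [← RD1]; noncomm_ring
    have e2 : R - D * R = 1 - D := by rw [← DR1]; noncomm_ring
    have e3 : R - R * D = R - D * R := by rw [e1, e2]
    exact sub_right_injective e3
  refine ⟨fun j => (2 : ℝ) • (R * T j), ?_, ?_, ?_, ?_⟩
  · intro j
    simp only
    rw [mul_smul_comm, ← mul_assoc, ← RD, mul_assoc, DT]
  · intro j
    simp only
    rw [smul_mul_assoc, mul_assoc, TD]
  · -- the contraction property
    have h1 : ∀ j, ((2 : ℝ) • (R * T j)) * star ((2 : ℝ) • (R * T j)) ≤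
        (4 : ℝ) • (R * T j * R) := by
      intro j
      have e1 : T j * T j ≤ T j := by
        rw [← sub_nonneg]
        have e2 : T j - T j * T j = star ((F j - G j) * D) * (1 - D) * ((F j - G j) * D) := by
          have hp := (h.P_proj j)
          rw [star_mul, hDp.sa, hp.sa]
          simp only [hT]
          have e3 : D * (F j - G j) * D * (D * (F j - G j) * D) =
              D * (F j - G j) * (D * D) * (F j - G j) * D := by noncomm_ring
          rw [e3, hDp.idem]
          have e4 : D * (F j - G j) * (1 - D) * ((F j - G j) * D) =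
              D * ((F j - G j) * (F j - G j)) * D - D * (F j - G j) * D * (F j - G j) * D := by
            noncomm_ring
          rw [e4, hp.idem]
        rw [e2]
        exact conj_nonneg hDp.one_sub.nonneg _
      have e5 : ((2 : ℝ) • (R * T j)) * star ((2 : ℝ) • (R * T j)) =
          (4 : ℝ) • (R * (T j * T j) * R) := by
        rw [star_smul, star_mul, sR, hTs, smul_mul_smul_comm]
        norm_num
        noncomm_ring
      rw [e5]
      refine smul_le_smul_of_nonneg_left ?_ (by norm_num)
      have := conj_nonneg (sub_nonneg.2 e1) R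
      rw [sR, mul_sub, sub_mul] at this
      exact sub_nonneg.1 this
    refine (Finset.sum_le_sum fun j _ => h1 j).trans ?_
    rw [← Finset.smul_sum]
    have e6 : ∑ j, R * T j * R = R * Z * R := by
      rw [hZ, Finset.mul_sum, Finset.sum_mul]
    rw [e6, RZ, ← sub_nonneg]
    have e7 : D - (4 : ℝ) • ((1 - R) * R) = star ((1 - (2 : ℝ) • R) * D) * ((1 - (2 : ℝ) • R) * D) := by
      rw [star_mul, hDp.sa, star_sub, star_one, star_smul, sR]
      have e8 : star (2 : ℝ) = 2 := rfl
      rw [e8]
      have e9 : D * (1 - (2 : ℝ) • R) = (1 - (2 : ℝ) • R) * D := by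
        rw [mul_sub, sub_mul, mul_one, one_mul, mul_smul_comm, smul_mul_assoc, RD]
      rw [e9]
      have e10 : (1 - (2 : ℝ) • R) * D * ((1 - (2 : ℝ) • R) * D) =
          (1 - (2 : ℝ) • R) * (D * (1 - (2 : ℝ) • R)) * D := by noncomm_ring
      rw [e10, e9]
      have e11 : (1 - (2 : ℝ) • R) * ((1 - (2 : ℝ) • R) * D) * D =
          ((1 - (2 : ℝ) • R) * (1 - (2 : ℝ) • R)) * (D * D) := by noncomm_ring
      rw [e11, hDp.idem]
      have e12 : (1 - (2 : ℝ) • R) * (1 - (2 : ℝ) • R) = 1 - (4 : ℝ) • ((1 - R) * R) := by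
        simp only [sub_mul, mul_sub, one_mul, mul_one, smul_mul_assoc, mul_smul_comm, smul_sub,
          smul_smul]
        module
      have e13 : (1 - R) * R * (1 - D) = 0 := by
        rw [mul_assoc, RD1, sub_mul, one_mul, RD1, sub_self]
      have e14 : (1 - R) * R * (1 - D) = (1 - R) * R - (1 - R) * R * D := by noncomm_ring
      rw [e14] at e13
      have e15 : (1 - R) * R = (1 - R) * R * D := sub_eq_zero.1 e13
      rw [e12, sub_mul 1 _ D, one_mul, smul_mul_assoc, ← e15]
    rw [e7]
    exact star_mul_nonneg _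
  · -- the value
    have PD : ∀ j, tr ((F j - G j) * (1 - D)) = tr ((F j - G j) * q) := by
      intro j
      have e1 : (F j - G j) * (1 - D) = (F j - G j) - (F j * Q - G j * Q) + (F j - G j) * q := by
        rw [hD]; noncomm_ring
      have e2 : G j * Q = G j := by
        have := congrArg star (h.QG j)
        rwa [star_mul, h.Q_proj.sa, (h.G_proj j).sa] at this
      rw [e1, h.FQ, e2, sub_self, zero_add]
    have h1 : ∀ j, tr ((F j - G j) * ((2 : ℝ) • (R * T j))) = 2 * tr (R * (T j * T j)) := by
      intro j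
      rw [mul_smul_comm, tr_smul]
      congr 1
      have e1 : R * T j = D * (R * T j) * D := by
        rw [← mul_assoc D R, ← RD, mul_assoc R D, DT, mul_assoc, TD]
      have e2 : (F j - G j) * (R * T j) = ((F j - G j) * D * (R * T j)) * D := by
        conv_lhs => rw [e1]
        noncomm_ring
      have e3 : D * ((F j - G j) * D * (R * T j)) = T j * (R * T j) := by
        simp only [hT]; noncomm_ring
      rw [e2, tr_comm, e3, tr_comm, mul_assoc]
    have h2 : ∀ j, tr (R * T j) - tr ((F j - G j) * q) ≤ tr (R * (T j * T j)) := by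
      intro j
      have hp := (h.P_proj j)
      have e2 : T j - T j * T j = star ((F j - G j) * D) * (1 - D) * ((F j - G j) * D) := by
        rw [star_mul, hDp.sa, hp.sa]
        simp only [hT]
        have e3 : D * (F j - G j) * D * (D * (F j - G j) * D) =
            D * (F j - G j) * (D * D) * (F j - G j) * D := by noncomm_ring
        rw [e3, hDp.idem]
        have e4 : D * (F j - G j) * (1 - D) * ((F j - G j) * D) =
            D * ((F j - G j) * (F j - G j)) * D - D * (F j - G j) * D * (F j - G j) * D := by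
          noncomm_ring
        rw [e4, hp.idem]
      have e5 : 0 ≤ T j - T j * T j := by
        rw [e2]; exact conj_nonneg hDp.one_sub.nonneg _
      have e6 : tr (R * (T j - T j * T j)) ≤ tr (T j - T j * T j) := by
        have := tr_mul_mono e5 hR1
        rwa [one_mul] at this
      have e7 : tr (T j - T j * T j) ≤ tr ((F j - G j) * q) := by
        rw [← PD j, e2, star_mul, hDp.sa, hp.sa]
        have e8 : D * (F j - G j) * (1 - D) * ((F j - G j) * D) =
            D * ((F j - G j) * (1 - D) * (F j - G j)) * D := by noncomm_ring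
        rw [e8, tr_comm, ← mul_assoc, hDp.idem]
        have e9 : 0 ≤ (F j - G j) * (1 - D) * (F j - G j) := by
          have := conj_nonneg hDp.one_sub.nonneg (F j - G j)
          rwa [hp.sa] at this
        refine (tr_compress hDp e9).trans (le_of_eq ?_)
        rw [tr_comm, ← mul_assoc, hp.idem]
      rw [mul_sub, tr_sub] at e6
      linarith
    have h3 : 2 * tr (R * Z) - 2 * tr (N * q) ≤ ∑ j, tr ((F j - G j) * ((2 : ℝ) • (R * T j))) := by
      have e1 : tr (R * Z) = ∑ j, tr (R * T j) := by rw [hZ, Finset.mul_sum, tr_sum]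
      have e2 : tr (N * q) = ∑ j, tr ((F j - G j) * q) := by rw [hN, Finset.sum_mul, tr_sum]
      rw [e1, e2, Finset.mul_sum, Finset.mul_sum, ← Finset.sum_sub_distrib]
      refine Finset.sum_le_sum fun j _ => ?_
      rw [h1 j]
      linarith [h2 j]
    have h4 : 3 * tr Z - tr (Z * Z) ≤ 4 * tr (R * Z) := by
      have e1 : 0 ≤ star (1 - Z) * (1 - R) * (1 - Z) := conj_nonneg (sub_nonneg.2 hR1) _
      have e2 : star (1 - Z) * (1 - R) * (1 - Z) = (4 : ℝ) • (1 - R) - (3 : ℝ) • Z + Z * Z := by
        rw [star_sub, star_one, hZs]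
        have e3 : (1 - Z) * (1 - R) * (1 - Z) =
            1 - R - (Z - Z * R) - (Z - R * Z) + (Z * Z - Z * R * Z) := by noncomm_ring
        rw [e3, ZR, RZ, sub_mul, one_mul, RZ]
        module
      rw [e2] at e1
      have e4 := tr_nonneg e1
      rw [tr_add, tr_sub, tr_smul, tr_smul, ← RZ] at e4
      linarith
    have h5 : tr Z = tr N - tr (N * q) := by
      have e1 : Z = D * N * D := by
        rw [hZ, hN, Finset.mul_sum, Finset.sum_mul]
      rw [e1, tr_comm, ← mul_assoc, hDp.idem, hD, sub_mul, QN, tr_sub, tr_comm q N]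
    have h6 : tr (Z * Z) ≤ tr (S * S) - tr (S' * S') := by
      have DS' : D * S' = 0 := by rw [hD, sub_mul, QS', qS', sub_self]
      have e1 : Z = D * S * D := by
        have : Z = D * N * D := by rw [hZ, hN, Finset.mul_sum, Finset.sum_mul]
        rw [this, hNS, mul_sub D S S', DS', sub_zero]
      have e2 : tr (Z * Z) = tr (D * S * (D * S)) := by
        rw [e1]
        have e3 : D * S * D * (D * S * D) = D * S * (D * D) * S * D := by noncomm_ring
        rw [e3, hDp.idem, tr_comm]
        have e4 : D * (D * S * D * S) = D * D * S * D * S := by noncomm_ring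
        rw [e4, hDp.idem, mul_assoc (D * S)]
      have DS : D * S = S - q * S := by rw [hD, sub_mul, QS]
      have e5 : tr (Z * Z) = tr (S * S) - 2 * tr (q * (S * S)) + tr (q * S * (q * S)) := by
        rw [e2, DS]
        have e6 : (S - q * S) * (S - q * S) = S * S - S * (q * S) - q * S * S + q * S * (q * S) := by
          noncomm_ring
        rw [e6, tr_add, tr_sub, tr_sub, tr_comm S (q * S)]
        have e7 : q * S * S = q * (S * S) := by rw [mul_assoc]
        rw [e7]; ring
      have e8 : tr (q * S * (q * S)) ≤ tr (q * (S * S)) := by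
        have e9 : 0 ≤ star (S * q) * (1 - q) * (S * q) := conj_nonneg h.q_proj.one_sub.nonneg _
        have e10 : star (S * q) * (1 - q) * (S * q) = q * (S * S) * q - q * S * (q * S) * q := by
          rw [star_mul, h.q_proj.sa, sS]; noncomm_ring
        rw [e10] at e9
        have e11 := tr_nonneg e9
        rw [tr_sub, tr_comm _ q, tr_comm _ q] at e11
        have e12 : q * (q * (S * S)) = q * (S * S) := by rw [← mul_assoc, h.q_proj.idem]
        have e13 : q * (q * S * (q * S)) = q * S * (q * S) := by
          have e30 : q * (q * S * (q * S)) = (q * q) * S * (q * S) := by noncomm_ring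
          rw [e30, h.q_proj.idem]
        rw [e12, e13] at e11
        linarith
      have e14 : tr (S' * S') ≤ tr (q * S * (q * S)) := by
        have e15 : q * S * q = S' + q * N * q := by
          have : S = S' + N := by rw [hNS]; abel
          rw [this, mul_add, add_mul, qS', S'q]
        have e16 : tr (q * S * (q * S)) = tr ((q * S * q) * (q * S * q)) := by
          have e17 : q * S * q * (q * S * q) = q * S * (q * q) * S * q := by noncomm_ring
          rw [e17, h.q_proj.idem, tr_comm _ q]
          have e18 : q * (q * S * q * S) = q * q * S * q * S := by noncomm_ring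
          rw [e18, h.q_proj.idem]
          congr 1
          noncomm_ring
        have hqN : 0 ≤ q * N * q := by
          have := conj_nonneg hN0 q
          rwa [h.q_proj.sa] at this
        rw [e16, e15]
        have e19 : (S' + q * N * q) * (S' + q * N * q) =
            S' * S' + S' * (q * N * q) + (q * N * q) * S' + (q * N * q) * (q * N * q) := by
          noncomm_ring
        rw [e19, tr_add, tr_add, tr_add]
        have := tr_mul_nonneg hS'0 hqN
        have := tr_mul_nonneg hqN hS'0
        have := tr_mul_nonneg hqN hqN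
        linarith
      linarith
    rw [hmF, hmG]
    linarith

end Level

end Pool.Agent.R993.MT
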