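import Pool.Agent.R993.MTGlobal

set_option autoImplicit false

open Matrix
open scoped MatrixOrder ComplexOrder

namespace Pool.Agent.R993.MT

variable {n : Type*} [Fintype n] [DecidableEq n]

lemma contOn (A : Matrix n n ℂ) (f : ℝ → ℝ) : ContinuousOn f (spectrum ℝ A) :=
  (Matrix.finite_real_spectrum (A := A)).continuousOn f

lemma fc_star (f : ℝ → ℝ) (A : Matrix n n ℂ) : star (cfc f A) = cfc f A :=
  (cfc_predicate f A : IsSelfAdjoint (cfc f A)).star_eq

lemma fc_mul (f g : ℝ → ℝ) (A : Matrix n n ℂ) :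
    cfc f A * cfc g A = cfc (fun x => f x * g x) A :=
  (cfc_mul f g A (contOn A f) (contOn A g)).symm

lemma fc_add (f g : ℝ → ℝ) (A : Matrix n n ℂ) :
    cfc f A + cfc g A = cfc (fun x => f x + g x) A :=
  (cfc_add A f g (contOn A f) (contOn A g)).symm

lemma fc_sub (f g : ℝ → ℝ) (A : Matrix n n ℂ) :
    cfc f A - cfc g A = cfc (fun x => f x - g x) A :=
  (cfc_sub f g A (contOn A f) (contOn A g)).symm

lemma fc_smul (c : ℝ) (f : ℝ → ℝ) (A : Matrix n n ℂ) :
    c • cfc f A = cfc (fun x => c * f x) A :=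
  (cfc_smul c f A (contOn A f)).symm

lemma fc_id {A : Matrix n n ℂ} (hA : star A = A) : cfc (fun x : ℝ => x) A = A :=
  cfc_id' ℝ A hA

lemma fc_const {A : Matrix n n ℂ} (hA : star A = A) (c : ℝ) :
    cfc (fun _ : ℝ => c) A = c • (1 : Matrix n n ℂ) := by
  have hA' : IsSelfAdjoint A := hA
  rw [cfc_const c A hA', Algebra.algebraMap_eq_smul_one]

lemma fc_mul_self (f : ℝ → ℝ) {A : Matrix n n ℂ} (hA : star A = A) :
    cfc f A * A = cfc (fun x => f x * x) A := by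
  have h : cfc f A * A = cfc f A * cfc (fun x : ℝ => x) A := by rw [fc_id hA]
  rw [h, fc_mul]

lemma self_fc_mul (f : ℝ → ℝ) {A : Matrix n n ℂ} (hA : star A = A) :
    A * cfc f A = cfc (fun x => x * f x) A := by
  have h : A * cfc f A = cfc (fun x : ℝ => x) A * cfc f A := by rw [fc_id hA]
  rw [h, fc_mul]

lemma fc_sum {ι : Type*} (s : Finset ι) (f : ι → ℝ → ℝ) (A : Matrix n n ℂ) :
    ∑ i ∈ s, cfc (f i) A = cfc (fun x => ∑ i ∈ s, f i x) A := by
  rw [← cfc_sum f A s (fun i _ => contOn A (f i))]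
  congr 1
  ext x
  simp

lemma fc_mono {f g : ℝ → ℝ} {A : Matrix n n ℂ} (h : ∀ x ∈ spectrum ℝ A, f x ≤ g x) :
    cfc f A ≤ cfc g A :=
  cfc_mono h (contOn A f) (contOn A g)

lemma fc_congr {f g : ℝ → ℝ} {A : Matrix n n ℂ} (h : ∀ x ∈ spectrum ℝ A, f x = g x) :
    cfc f A = cfc g A :=
  cfc_congr h

lemma spec_nonneg {A : Matrix n n ℂ} (hA : 0 ≤ A) {x : ℝ} (hx : x ∈ spectrum ℝ A) : 0 ≤ x :=
  spectrum_nonneg_of_nonneg hA hx

lemma fc_proj (p : ℝ → Prop) [DecidablePred p] (A : Matrix n n ℂ) :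
    Proj (cfc (fun x => if p x then (1 : ℝ) else 0) A) := by
  refine ⟨fc_star _ _, ?_⟩
  rw [fc_mul]
  congr 1
  ext x
  split_ifs <;> simp

/-- Support projection and pseudo-inverses. -/
lemma exists_supp {S : Matrix n n ℂ} (hS : 0 ≤ S) : ∃ Q H G : Matrix n n ℂ,
    Proj Q ∧ Q * S = S ∧ star H = H ∧ H * S * H = Q ∧ Q = S * G := by
  have hs : star S = S := (IsSelfAdjoint.of_nonneg hS).star_eq
  have hid : cfc (fun x : ℝ => x) S = S := fc_id hs
  refine ⟨cfc (fun x : ℝ => if x ≠ 0 then (1 : ℝ) else 0) S, cfc (fun x : ℝ => (√x)⁻¹) S,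
    cfc (fun x : ℝ => x⁻¹) S, fc_proj _ _, ?_, fc_star _ _, ?_, ?_⟩
  · rw [fc_mul_self _ hs]
    have h1 : (fun x : ℝ => (if x ≠ 0 then (1 : ℝ) else 0) * x) = fun x => x := by
      ext x; by_cases hx : x = 0 <;> simp [hx]
    rw [h1, hid]
  · rw [fc_mul_self _ hs, fc_mul]
    refine fc_congr fun x hx => ?_
    have hx0 := spec_nonneg hS hx
    by_cases h0 : x = 0
    · simp [h0]
    · have h1 : √x ≠ 0 := Real.sqrt_ne_zero'.2 (lt_of_le_of_ne hx0 (Ne.symm h0))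
      simp only [ne_eq, h0, not_false_eq_true, if_true]
      have h2 : √x * √x = x := Real.mul_self_sqrt hx0
      field_simp
      nlinarith [h2]
  · rw [self_fc_mul _ hs]
    refine fc_congr fun x _ => ?_
    by_cases h0 : x = 0
    · simp [h0]
    · simp [h0]

lemma eq_of_supp {Q S F : Matrix n n ℂ} (hQ : Proj Q) (hQS : Q * S = S) (hF : Proj F)
    (hFS : F ≤ S) : Q * F = F := by
  have h1 : 0 ≤ star (1 - Q) * (S - F) * (1 - Q) := conj_nonneg (sub_nonneg.2 hFS) _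
  have h2 : star (1 - Q) * (S - F) * (1 - Q) = - ((1 - Q) * F * (1 - Q)) := by
    have e1 : (1 - Q) * S = 0 := by rw [sub_mul, one_mul, hQS, sub_self]
    have e2 : (1 - Q) * (S - F) * (1 - Q) = ((1 - Q) * S) * (1 - Q) - (1 - Q) * F * (1 - Q) := by
      noncomm_ring
    rw [hQ.one_sub.sa, e2, e1, zero_mul, zero_sub]
  rw [h2] at h1
  have h3 : (1 - Q) * F * (1 - Q) = star (F * (1 - Q)) * (F * (1 - Q)) := by
    rw [star_mul, hF.sa, hQ.one_sub.sa, mul_assoc, mul_assoc, ← mul_assoc F F, hF.idem]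
  have h4 : tr (star (F * (1 - Q)) * (F * (1 - Q))) ≤ 0 := by
    rw [← h3]
    have := tr_nonneg h1
    rw [tr_neg] at this
    linarith
  have h5 : F * (1 - Q) = 0 := by
    have h6 : (star (F * (1 - Q)) * (F * (1 - Q))).trace = 0 := by
      have h7 := (nonneg_iff_posSemidef.1 (star_mul_nonneg (F * (1 - Q)))).trace_nonneg
      have h8 := Complex.nonneg_iff.1 h7
      apply Complex.ext
      · have : tr (star (F * (1 - Q)) * (F * (1 - Q))) = 0 := le_antisymm h4 h8.1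
        exact this
      · exact h8.2.symm
    rw [Matrix.star_eq_conjTranspose] at h6
    exact Matrix.trace_conjTranspose_mul_self_eq_zero_iff.1 h6
  have h6 : F = F * Q := by
    rw [mul_sub, mul_one, sub_eq_zero] at h5
    exact h5
  have h7 := congrArg star h6
  rw [star_mul, hF.sa, hQ.sa] at h7
  exact h7.symm

/-- The trace of the support projection of a sum of projections. -/
lemma tr_supp_le {ι : Type*} [Fintype ι] {F : ι → Matrix n n ℂ} (hF : ∀ j, Proj (F j))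
    {Q H : Matrix n n ℂ} (hQ : Proj Q) (hH : star H = H) (hHQ : H * (∑ j, F j) * H = Q) :
    tr Q ≤ ∑ j, tr (F j) := by
  rw [← hHQ, Finset.mul_sum, Finset.sum_mul, tr_sum]
  refine Finset.sum_le_sum fun j _ => ?_
  have hT0 : 0 ≤ H * F j * H := by
    have := conj_nonneg (hF j).nonneg H
    rwa [hH] at this
  have hT1 : H * F j * H ≤ 1 := by
    refine le_trans ?_ hQ.le_one
    rw [← hHQ, Finset.mul_sum, Finset.sum_mul]
    refine Finset.single_le_sum (f := fun j => H * F j * H) (fun l _ => ?_) (Finset.mem_univ j)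
    have := conj_nonneg (hF l).nonneg H
    rwa [hH] at this
  have h1 := two_tr_le (F j) (F j * (H * H) * F j)
  have e1 : star (F j) * (F j * (H * H) * F j) = F j * (H * H) * F j := by
    rw [(hF j).sa, ← mul_assoc, ← mul_assoc, (hF j).idem]
  have e2 : star (F j) * F j = F j := by rw [(hF j).sa, (hF j).idem]
  have e3 : star (F j * (H * H) * F j) = F j * (H * H) * F j := by
    rw [star_mul, star_mul, star_mul, (hF j).sa, hH]; noncomm_ring
  rw [e1, e2, e3] at h1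
  have e4 : tr (F j * (H * H) * F j) = tr (H * F j * H) := by
    have : F j * (H * H) * F j = (F j * H) * (H * F j) := by noncomm_ring
    rw [this, tr_comm]
    have : H * F j * (F j * H) = H * (F j * F j) * H := by noncomm_ring
    rw [this, (hF j).idem]
  have e5 : tr (F j * (H * H) * F j * (F j * (H * H) * F j)) =
      tr ((H * F j * H) * (H * F j * H)) := by
    have : F j * (H * H) * F j * (F j * (H * H) * F j) =
        (F j * H) * (H * (F j * F j) * (H * H) * F j) := by noncomm_ring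
    rw [this, tr_comm, (hF j).idem]
    have : H * F j * (H * H) * F j * (F j * H) = H * F j * (H * H) * (F j * F j) * H := by
      noncomm_ring
    rw [this, (hF j).idem]
    congr 1
    noncomm_ring
  have h2 : tr ((H * F j * H) * (H * F j * H)) ≤ tr (H * F j * H) := by
    have := tr_mul_mono hT0 hT1
    rwa [one_mul] at this
  rw [e4, e5] at h1
  linarith

/-- Level sets of a positive matrix. -/
noncomputable def lev (t : ℝ) (A : Matrix n n ℂ) : Matrix n n ℂ :=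
  cfc (fun x : ℝ => if t ≤ x then (1 : ℝ) else 0) A

lemma lev_proj (t : ℝ) (A : Matrix n n ℂ) : Proj (lev t A) := fc_proj _ _

lemma lev_mul {s t : ℝ} (h : s ≤ t) (A : Matrix n n ℂ) : lev s A * lev t A = lev t A := by
  unfold lev
  rw [fc_mul]
  congr 1
  ext x
  by_cases h1 : t ≤ x
  · simp [h1, h.trans h1]
  · simp [h1]

lemma sum_indic (t₀ : ℝ) (x : ℝ) (hx : 0 ≤ x) (ht : 0 < t₀) (M : ℕ) :
    (∑ k ∈ Finset.range M, (t₀ * 2 ^ k / 2) * (if t₀ * 2 ^ k ≤ x then (1 : ℝ) else 0)) +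
      (if t₀ * 2 ^ M ≤ x then t₀ * 2 ^ M / 2 else 0) ≤ x := by
  induction M with
  | zero =>
    simp only [Finset.range_zero, Finset.sum_empty, pow_zero, mul_one, zero_add]
    split_ifs with h
    · linarith
    · exact hx
  | succ M ih =>
    rw [Finset.sum_range_succ]
    by_cases h : t₀ * 2 ^ (M + 1) ≤ x
    · have h' : ∀ k ≤ M + 1, t₀ * 2 ^ k ≤ x := by
        intro k hk
        refine le_trans ?_ h
        have : (2 : ℝ) ^ k ≤ 2 ^ (M + 1) := pow_le_pow_right₀ (by norm_num) hk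
        nlinarith
      have e1 : ∑ k ∈ Finset.range M, (t₀ * 2 ^ k / 2) * (if t₀ * 2 ^ k ≤ x then (1 : ℝ) else 0) =
          t₀ * (2 ^ M - 1) / 2 := by
        rw [Finset.sum_congr rfl (g := fun k => t₀ / 2 * 2 ^ k) (fun k hk => by
          rw [if_pos (h' k ((Finset.mem_range.1 hk).le.trans (Nat.le_succ M)))]; ring)]
        rw [← Finset.mul_sum, geom_sum_eq (by norm_num)]
        ring
      rw [e1, if_pos h, if_pos (h' M (Nat.le_succ M))]
      have : (2 : ℝ) ^ (M + 1) = 2 * 2 ^ M := by ring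
      rw [this] at h ⊢
      nlinarith [pow_pos (show (0:ℝ) < 2 by norm_num) M]
    · rw [if_neg h]
      by_cases h2 : t₀ * 2 ^ M ≤ x
      · rw [if_pos h2] at ih ⊢
        linarith
      · rw [if_neg h2] at ih ⊢
        linarith

lemma lev_lower {A : Matrix n n ℂ} (hA : 0 ≤ A) {t₀ : ℝ} (ht : 0 < t₀) (M : ℕ) :
    ∑ k ∈ Finset.range M, (t₀ * 2 ^ k / 2) • lev (t₀ * 2 ^ k) A ≤ A := by
  have hs : star A = A := (IsSelfAdjoint.of_nonneg hA).star_eq
  conv_rhs => rw [← fc_id hs]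
  unfold lev
  rw [Finset.sum_congr rfl fun k _ => fc_smul (t₀ * 2 ^ k / 2) _ A, fc_sum]
  refine fc_mono fun x hx => ?_
  have hx0 := spec_nonneg hA hx
  have h1 := sum_indic t₀ x hx0 ht M
  have h2 : (0 : ℝ) ≤ (if t₀ * 2 ^ M ≤ x then t₀ * 2 ^ M / 2 else 0) := by
    split_ifs <;> positivity
  linarith

lemma indic_upper (t₀ : ℝ) (x : ℝ) (ht : 0 < t₀) (M : ℕ) (hM : x < t₀ * 2 ^ M) :
    x ≤ t₀ + ∑ k ∈ Finset.range M, (2 * (t₀ * 2 ^ k)) *
      ((if t₀ * 2 ^ k ≤ x then (1 : ℝ) else 0) - (if t₀ * 2 ^ (k + 1) ≤ x then (1 : ℝ) else 0)) := by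
  have hpos : ∀ k, 0 ≤ (2 * (t₀ * 2 ^ k)) *
      ((if t₀ * 2 ^ k ≤ x then (1 : ℝ) else 0) - (if t₀ * 2 ^ (k + 1) ≤ x then (1 : ℝ) else 0)) := by
    intro k
    have h1 : t₀ * 2 ^ k ≤ t₀ * 2 ^ (k + 1) := by
      rw [pow_succ]; nlinarith [pow_pos (show (0:ℝ) < 2 by norm_num) k]
    refine mul_nonneg (by positivity) ?_
    by_cases h : t₀ * 2 ^ (k + 1) ≤ x
    · rw [if_pos h, if_pos (h1.trans h)]; simp
    · rw [if_neg h]; split_ifs <;> norm_num
  induction M with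
  | zero =>
    simp only [pow_zero, mul_one] at hM
    simp only [Finset.range_zero, Finset.sum_empty, add_zero]
    exact hM.le
  | succ M ih =>
    rw [Finset.sum_range_succ]
    by_cases h : x < t₀ * 2 ^ M
    · linarith [ih h, hpos M]
    · have h' : t₀ * 2 ^ M ≤ x := not_lt.1 h
      rw [if_pos h', if_neg (not_le.2 hM)]
      have h1 : 0 ≤ ∑ k ∈ Finset.range M, (2 * (t₀ * 2 ^ k)) *
        ((if t₀ * 2 ^ k ≤ x then (1 : ℝ) else 0) - (if t₀ * 2 ^ (k + 1) ≤ x then (1 : ℝ) else 0)) :=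
        Finset.sum_nonneg fun k _ => hpos k
      have h2 : t₀ * 2 ^ (M + 1) = 2 * (t₀ * 2 ^ M) := by ring
      rw [h2] at hM
      linarith

lemma lev_upper {A : Matrix n n ℂ} (hA : 0 ≤ A) {t₀ : ℝ} (ht : 0 < t₀) (M : ℕ)
    (hM : ∀ x ∈ spectrum ℝ A, x < t₀ * 2 ^ M) :
    A ≤ t₀ • (1 : Matrix n n ℂ) + ∑ k ∈ Finset.range M, (2 * (t₀ * 2 ^ k)) •
      (lev (t₀ * 2 ^ k) A - lev (t₀ * 2 ^ (k + 1)) A) := by
  have hs : star A = A := (IsSelfAdjoint.of_nonneg hA).star_eq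
  conv_lhs => rw [← fc_id hs]
  unfold lev
  rw [Finset.sum_congr rfl fun k _ => (congrArg (fun Z => (2 * (t₀ * 2 ^ k)) • Z)
    (fc_sub _ _ A)).trans (fc_smul (2 * (t₀ * 2 ^ k)) _ A), fc_sum, ← fc_const hs, fc_add]
  exact fc_mono fun x hx => indic_upper t₀ x ht M (hM x hx)

lemma lev_eq_zero {A : Matrix n n ℂ} {t : ℝ} (h : ∀ x ∈ spectrum ℝ A, x < t) : lev t A = 0 := by
  unfold lev
  rw [fc_congr (g := fun _ => 0) (fun x hx => if_neg (not_le.2 (h x hx)))]
  exact cfc_const_zero ℝ A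

/-- The chain of levels for a family of positive matrices. -/
lemma exists_levels {ι : Type*} [Fintype ι] (A : ι → Matrix n n ℂ) {t₀ : ℝ}
    (ht : 0 < t₀) : ∃ Q : ℕ → Matrix n n ℂ, ∀ k,
    Level (fun j => lev (t₀ * 2 ^ k) (A j)) (fun j => lev (t₀ * 2 ^ (k + 1)) (A j))
      (Q k) (Q (k + 1)) := by
  have hS : ∀ k : ℕ, 0 ≤ ∑ j, lev (t₀ * 2 ^ k) (A j) := fun k =>
    Finset.sum_nonneg fun j _ => (lev_proj _ _).nonneg
  choose Q H G hQ hQS hH hHQ hQG using fun k => exists_supp (hS k)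
  have hle : ∀ k : ℕ, t₀ * 2 ^ k ≤ t₀ * 2 ^ (k + 1) := fun k => by
    rw [pow_succ]; nlinarith [pow_pos (show (0:ℝ) < 2 by norm_num) k]
  have hQF : ∀ k j, Q k * lev (t₀ * 2 ^ k) (A j) = lev (t₀ * 2 ^ k) (A j) := by
    intro k j
    refine eq_of_supp (hQ k) (hQS k) (lev_proj _ _) ?_
    exact Finset.single_le_sum (f := fun j => lev (t₀ * 2 ^ k) (A j))
      (fun l _ => (lev_proj _ _).nonneg) (Finset.mem_univ j)
  have hQtr : ∀ k, tr (Q k) ≤ ∑ j, tr (lev (t₀ * 2 ^ k) (A j)) := fun k =>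
    tr_supp_le (fun j => lev_proj _ _) (hQ k) (hH k) (hHQ k)
  refine ⟨Q, fun k => ⟨fun j => lev_proj _ _, fun j => lev_proj _ _,
    fun j => lev_mul (hle k) _, hQ k, hQ (k + 1), hQF k, hQF (k + 1), ?_, hQtr k, hQtr (k + 1)⟩⟩
  have h1 : ∀ j, Q k * lev (t₀ * 2 ^ (k + 1)) (A j) = lev (t₀ * 2 ^ (k + 1)) (A j) := by
    intro j
    rw [← lev_mul (hle k), ← mul_assoc, hQF]
  have h2 : Q k * (∑ j, lev (t₀ * 2 ^ (k + 1)) (A j)) = ∑ j, lev (t₀ * 2 ^ (k + 1)) (A j) := by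
    rw [Finset.mul_sum]; exact Finset.sum_congr rfl fun j _ => h1 j
  rw [hQG (k + 1), ← mul_assoc, h2]

end Pool.Agent.R993.MT
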